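import Pool.Agent.Q235.MO.Fam
import Pool.Agent.Helper186.Moser

/-!
Project MO: smoothness of the values of a form on smooth sections.
-/

set_option autoImplicit false

open Set Filter Topology Bundle
open scoped Manifold ContDiff

noncomputable section

namespace Pool.Agent.Q235.MO

open Pool.Agent.Y501.SYP
open Pool.Agent.Helper186 (SmoothBilinAt contMDiffAt_coord contMDiffAt_of_pairing
  eventually_nondegenerate)

section ev

variable {V : Type} [NormedAddCommGroup V] [NormedSpace ℝ V]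

/-- the linear map with given values on the unit vectors -/
def Lm {k : ℕ} (W : Fin k → V) : (Fin k → ℝ) →L[ℝ] V :=
  ∑ i, (ContinuousLinearMap.proj (R := ℝ) (φ := fun _ : Fin k => ℝ) i).smulRight (W i)

theorem Lm_single {k : ℕ} (W : Fin k → V) (i : Fin k) : Lm W (Pi.single i (1 : ℝ)) = W i := by
  unfold Lm
  rw [sum_apply, Finset.sum_eq_single i]
  · simp
  · intro j _ hj
    simp [Pi.single_apply, hj]
  · intro h
    exact absurd (Finset.mem_univ i) h

theorem Lm_smooth {k : ℕ} : ContDiff ℝ ∞ (fun W : Fin k → V => Lm W) := by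
  unfold Lm
  refine ContDiff.sum fun i _ => ?_
  exact contDiff_const.smulRight (contDiff_apply ℝ V i)

/-- evaluation of alternating maps is smooth -/
theorem ev_smooth {k : ℕ} :
    ContDiff ℝ ∞ (fun q : (V [⋀^Fin k]→L[ℝ] ℝ) × (Fin k → V) => q.1 q.2) := by
  have h1 : (fun q : (V [⋀^Fin k]→L[ℝ] ℝ) × (Fin k → V) => q.1 q.2) =
      fun q => (q.1.compContinuousLinearMap (Lm q.2)) (fun i => Pi.single i (1 : ℝ)) := by
    funext q
    show q.1 q.2 = q.1 fun i => Lm q.2 (Pi.single i (1 : ℝ))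
    congr 1
    funext i
    exact (Lm_single q.2 i).symm
  rw [h1]
  have h2 : ContDiff ℝ ∞ (fun q : (V [⋀^Fin k]→L[ℝ] ℝ) × (Fin k → V) =>
      q.1.compContinuousLinearMap (Lm q.2)) :=
    Pool.Agent.Y604.SY.contDiff_pull.comp (contDiff_fst.prodMk (Lm_smooth.comp contDiff_snd))
  exact (ContinuousAlternatingMap.apply ℝ (Fin k → ℝ) ℝ
    (fun i => Pi.single i (1 : ℝ))).contDiff.comp h2

end ev

section

variable {V : Type} [NormedAddCommGroup V] [NormedSpace ℝ V] [FiniteDimensional ℝ V]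
  {X : Type} [TopologicalSpace X] [ChartedSpace V X] [IsManifold 𝓘(ℝ, V) ∞ X]
  {E' : Type*} [NormedAddCommGroup E'] [NormedSpace ℝ E']
  {H' : Type*} [TopologicalSpace H'] {J : ModelWithCorners ℝ E' H'}
  {P : Type*} [TopologicalSpace P] [ChartedSpace H' P]

/-- the values of a smooth form on smooth sections along a map are smooth -/
theorem form_sections {k : ℕ} {σ : Form V X k} (hσ : IsSmooth σ) {f : P → X} {p₀ : P}
    (hf : ContMDiffAt J 𝓘(ℝ, V) ∞ f p₀) {w : Fin k → (p : P) → TangentSpace 𝓘(ℝ, V) (f p)}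
    (hw : ∀ i, ContMDiffAt J 𝓘(ℝ, V).tangent ∞
      (fun p => (⟨f p, w i p⟩ : TangentBundle 𝓘(ℝ, V) X)) p₀) :
    ContMDiffAt J 𝓘(ℝ, ℝ) ∞ (fun p => σ (f p) fun i => w i p) p₀ := by
  obtain ⟨c, hc⟩ : ∃ c, c = chartAt V (f p₀) := ⟨_, rfl⟩
  have hcs : f p₀ ∈ c.source := by
    rw [hc]
    exact mem_chart_source V (f p₀)
  have hy : ContMDiffAt J 𝓘(ℝ, V) ∞ (fun p => c (f p)) p₀ := by
    have h1 : ContMDiffAt 𝓘(ℝ, V) 𝓘(ℝ, V) ∞ c (f p₀) := by
      rw [hc]
      exact contMDiffOn_chart.contMDiffAt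
        ((chartAt V (f p₀)).open_source.mem_nhds (mem_chart_source V (f p₀)))
    exact h1.comp p₀ hf
  have hco : ContDiffAt ℝ ∞ (pb c.symm σ) (c (f p₀)) := by
    rw [hc]
    exact (hσ _ _ ⟨(chartAt V (f p₀)).open_target, contMDiffOn_chart_symm⟩).contDiffAt
      ((chartAt V (f p₀)).open_target.mem_nhds
        ((chartAt V (f p₀)).map_source (mem_chart_source V (f p₀))))
  have hA : ContMDiffAt J 𝓘(ℝ, V [⋀^Fin k]→L[ℝ] ℝ) ∞ (fun p => pb c.symm σ (c (f p))) p₀ :=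
    hco.contMDiffAt.comp p₀ hy
  have hW : ContMDiffAt J 𝓘(ℝ, Fin k → V) ∞ (fun p => fun i =>
      (trivializationAt V (TangentSpace 𝓘(ℝ, V)) (f p₀)
        (⟨f p, w i p⟩ : TangentBundle 𝓘(ℝ, V) X)).2) p₀ := by
    rw [contMDiffAt_pi_space]
    intro i
    exact contMDiffAt_coord (hw i)
  have h3 : ContMDiffAt J 𝓘(ℝ, ℝ) ∞ (fun p => (pb c.symm σ (c (f p))) fun i =>
      (trivializationAt V (TangentSpace 𝓘(ℝ, V)) (f p₀)
        (⟨f p, w i p⟩ : TangentBundle 𝓘(ℝ, V) X)).2) p₀ := by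
    have h4 := (ev_smooth (V := V) (k := k)).contMDiff.contMDiffAt.comp p₀ (hA.prodMk_space hW)
    exact h4
  refine h3.congr_of_eventuallyEq ?_
  filter_upwards [hf.continuousAt.preimage_mem_nhds (c.open_source.mem_nhds hcs)] with p hp
  have hp' : f p ∈ (chartAt V (f p₀)).source := by
    rw [← hc]
    exact hp
  show σ (f p) (fun i => w i p) = σ (c.symm (c (f p))) fun i =>
    (mfderiv 𝓘(ℝ, V) 𝓘(ℝ, V) c.symm (c (f p)))
      ((trivializationAt V (TangentSpace 𝓘(ℝ, V)) (f p₀)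
        (⟨f p, w i p⟩ : TangentBundle 𝓘(ℝ, V) X)).2)
  have key : ∀ i, (mfderiv 𝓘(ℝ, V) 𝓘(ℝ, V) c.symm (c (f p))
      ((trivializationAt V (TangentSpace 𝓘(ℝ, V)) (f p₀)
        (⟨f p, w i p⟩ : TangentBundle 𝓘(ℝ, V) X)).2) : V) = w i p := by
    intro i
    have h1 := TangentBundle.symmL_trivializationAt (I := 𝓘(ℝ, V)) hp'
    have h2 : (trivializationAt V (TangentSpace 𝓘(ℝ, V)) (f p₀)).symmL ℝ (f p)
        ((trivializationAt V (TangentSpace 𝓘(ℝ, V)) (f p₀)).continuousLinearMapAt ℝ (f p)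
          (w i p)) = w i p :=
      (trivializationAt V (TangentSpace 𝓘(ℝ, V)) (f p₀)).symmL_continuousLinearMapAt (R := ℝ) hp'
        (w i p)
    rw [h1, ModelWithCorners.range_eq_univ, mfderivWithin_univ,
      Trivialization.continuousLinearMapAt_apply,
      Trivialization.coe_linearMapAt_of_mem (R := ℝ) _ hp'] at h2
    rw [hc]
    exact h2
  have hp1 : c.symm (c (f p)) = f p := c.left_inv hp
  have gen : ∀ (z : X) (hz : z = f p) (a b : Fin k → V), a = b →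
      (show V [⋀^Fin k]→L[ℝ] ℝ from σ (f p)) b = (show V [⋀^Fin k]→L[ℝ] ℝ from σ z) a := by
    rintro z rfl a b rfl
    rfl
  exact gen _ hp1 _ _ (funext key)

/-- the bilinear form of a two-form -/
def bil (σ : Form V X 2) (x : X) :
    TangentSpace 𝓘(ℝ, V) x →L[ℝ] TangentSpace 𝓘(ℝ, V) x →L[ℝ] ℝ :=
  show V →L[ℝ] V →L[ℝ] ℝ from
    ((ContinuousAlternatingMap.ofSubsingletonLIE (𝕜 := ℝ) (E := V) (F := ℝ)
      (0 : Fin 1)).symm.toContinuousLinearEquiv : (V [⋀^Fin 1]→L[ℝ] ℝ) →L[ℝ] (V →L[ℝ] ℝ)).comp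
        (show V [⋀^Fin 2]→L[ℝ] ℝ from σ x).curryLeft

theorem bil_apply (σ : Form V X 2) (x : X) (u v : TangentSpace 𝓘(ℝ, V) x) :
    bil σ x u v = σ x ![u, v] := by
  show (show V [⋀^Fin 2]→L[ℝ] ℝ from σ x) (Matrix.vecCons u fun _ : Fin 1 => v) = _
  congr 1
  funext i
  fin_cases i <;> rfl

end

end Pool.Agent.Q235.MO
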