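import Pool.Agent.Q235.MO.Fam
import Pool.Agent.Q235.SZ.Top

/-!
Project MO: the pull-backs of a smooth form by a smooth family of maps depend continuously on the
parameter, in the `C^∞` topology.
-/

set_option autoImplicit false

open Set Filter Topology
open scoped Manifold ContDiff

noncomputable section

namespace Pool.Agent.Q235.MO

open Pool.Agent.Y501.SYP
open Pool.Agent.Q235.SZ (SForm jet continuous_to)

section ev

variable {V : Type} [NormedAddCommGroup V] [NormedSpace ℝ V]

theorem iter_slice_cont {U : Set V} (hU : IsOpen U) (k : ℕ) :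
    ∀ (W : Type) [NormedAddCommGroup W] [NormedSpace ℝ W] (H : ℝ × V → W),
      ContDiffOn ℝ ∞ H (univ ×ˢ U) →
      ContinuousOn (fun q : ℝ × V => iteratedFDeriv ℝ k (fun p => H (q.1, p)) q.2)
        (univ ×ˢ U) := by
  have hD : IsOpen ((univ : Set ℝ) ×ˢ U) := isOpen_univ.prod hU
  induction k with
  | zero =>
    intro W _ _ H hH
    have h1 : (fun q : ℝ × V => iteratedFDeriv ℝ 0 (fun p => H (q.1, p)) q.2) =
        fun q => (continuousMultilinearCurryFin0 ℝ V W).symm (H q) := by
      funext q
      rw [iteratedFDeriv_zero_eq_comp]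
      rfl
    rw [h1]
    exact (continuousMultilinearCurryFin0 ℝ V W).symm.continuous.comp_continuousOn hH.continuousOn
  | succ k ih =>
    intro W _ _ H hH
    have h2 : ContDiffOn ℝ ∞ (fun q : ℝ × V => (fderiv ℝ H q).comp
        (ContinuousLinearMap.inr ℝ ℝ V)) (univ ×ˢ U) :=
      (hH.fderiv_of_isOpen hD (m := ∞) (by simp)).clm_comp contDiffOn_const
    have h3 := ih (V →L[ℝ] W) _ h2
    have h4 : ∀ q ∈ (univ : Set ℝ) ×ˢ U,
        iteratedFDeriv ℝ (k + 1) (fun p => H (q.1, p)) q.2 =
          (continuousMultilinearCurryRightEquiv' ℝ k V W).symm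
            (iteratedFDeriv ℝ k (fun p => (fderiv ℝ H (q.1, p)).comp
              (ContinuousLinearMap.inr ℝ ℝ V)) q.2) := by
      intro q hq
      rw [iteratedFDeriv_succ_eq_comp_right]
      have h5 : (fun y => fderiv ℝ (fun p => H (q.1, p)) y) =ᶠ[𝓝 q.2]
          fun p => (fderiv ℝ H (q.1, p)).comp (ContinuousLinearMap.inr ℝ ℝ V) := by
        filter_upwards [hU.mem_nhds hq.2] with p hp
        have h6 : HasFDerivAt H (fderiv ℝ H (q.1, p)) (q.1, p) :=
          ((hH.contDiffAt (hD.mem_nhds ⟨mem_univ _, hp⟩)).differentiableAt (by simp)).hasFDerivAt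
        exact (h6.comp p (hasFDerivAt_prodMk_right q.1 p)).fderiv
      have h7 := (h5.iteratedFDeriv ℝ k).self_of_nhds
      simp only [Function.comp_apply]
      rw [h7]
    refine ContinuousOn.congr ?_ h4
    exact (continuousMultilinearCurryRightEquiv' ℝ k V W).symm.continuous.comp_continuousOn h3

end ev

section

variable {V : Type} [NormedAddCommGroup V] [NormedSpace ℝ V]
  {X : Type} [TopologicalSpace X] [ChartedSpace V X] [IsManifold 𝓘(ℝ, V) ∞ X]

/-- the pull-back of a smooth form by a smooth map -/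
def pullS (f : X → X) (hf : ContMDiff 𝓘(ℝ, V) 𝓘(ℝ, V) ∞ f) (σ : SForm V X) : SForm V X :=
  ⟨pull f σ.1, smooth_pull σ.2 hf⟩

theorem pull_continuous {F : ℝ × X → X} (hF : SmFam (V := V) F) (σ : SForm V X) :
    Continuous fun s : ℝ => pullS (fun x => F (s, x)) (slice_smooth hF s) σ := by
  refine continuous_to fun x₀ k => ?_
  have hpar : SmoothParam (chartAt V x₀).target (chartAt V x₀).symm :=
    ⟨(chartAt V x₀).open_target, contMDiffOn_chart_symm⟩
  refine ContinuousMap.continuous_of_continuous_uncurry _ ?_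
  have h1 : ContDiffOn ℝ ∞ (fun q => resV (PB (fam F (chartAt V x₀).symm) σ.1 q))
      (univ ×ˢ (chartAt V x₀).target) :=
    (resV (V := V) (k := 2)).contDiff.comp_contDiffOn
      (PB_smooth (open_dom hpar) (fam_smooth hF hpar) σ.2)
  have h2 := iter_slice_cont (chartAt V x₀).open_target k _ _ h1
  have h3 : Continuous fun q : ℝ × (chartAt V x₀).target =>
      iteratedFDeriv ℝ k (fun p => resV (PB (fam F (chartAt V x₀).symm) σ.1 (q.1, p))) q.2.1 := by
    rw [← continuousOn_univ]
    exact h2.comp (f := fun q : ℝ × (chartAt V x₀).target => (q.1, q.2.1))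
      (continuous_fst.prodMk (continuous_subtype_val.comp continuous_snd)).continuousOn
      fun q _ => ⟨mem_univ _, q.2.2⟩
  refine h3.congr fun q => ?_
  show _ = iteratedFDeriv ℝ k (pb (chartAt V x₀).symm (pull (fun x => F (q.1, x)) σ.1)) q.2.1
  have h4 : (fun p => resV (PB (fam F (chartAt V x₀).symm) σ.1 (q.1, p))) =ᶠ[𝓝 q.2.1]
      pb (chartAt V x₀).symm (pull (fun x => F (q.1, x)) σ.1) := by
    filter_upwards [(chartAt V x₀).open_target.mem_nhds q.2.2] with p hp
      using resV_PB hF hpar σ.1 q.1 hp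
  exact (h4.iteratedFDeriv ℝ k).self_of_nhds

end

end Pool.Agent.Q235.MO
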