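import Pool.Agent.Q235.MO.Hm

/-!
Project MO: the homotopy formula for families of maps of a manifold.
-/

set_option autoImplicit false

open Set Filter Topology
open scoped Manifold ContDiff

noncomputable section

namespace Pool.Agent.Q235.MO

open Pool.Agent.Y501.SYP

section

variable {V : Type} [NormedAddCommGroup V] [NormedSpace ℝ V]
  {X : Type} [TopologicalSpace X] [ChartedSpace V X]

/-- smooth families of maps -/
def SmFam (F : ℝ × X → X) : Prop := ContMDiff (𝓘(ℝ, ℝ).prod 𝓘(ℝ, V)) 𝓘(ℝ, V) ∞ F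

/-- the velocity of a family -/
def vel (F : ℝ × X → X) (s : ℝ) (x : X) : TangentSpace 𝓘(ℝ, V) (F (s, x)) :=
  mfderiv 𝓘(ℝ, ℝ) 𝓘(ℝ, V) (fun t : ℝ => F (t, x)) s (1 : ℝ)

/-- the contraction of the pull-back of `σ` with the time direction -/
def bet {k : ℕ} (F : ℝ × X → X) (σ : Form V X (k + 1)) (s : ℝ) : Form V X k := fun x =>
  (show V [⋀^Fin k]→L[ℝ] ℝ from
    ((show V [⋀^Fin (k + 1)]→L[ℝ] ℝ from σ (F (s, x))).curryLeft
      (show V from vel (V := V) F s x)).compContinuousLinearMap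
        (show V →L[ℝ] V from mfderiv 𝓘(ℝ, V) 𝓘(ℝ, V) (fun x => F (s, x)) x))

theorem bet_apply {k : ℕ} (F : ℝ × X → X) (σ : Form V X (k + 1)) (s : ℝ) (x : X)
    (v : Fin k → TangentSpace 𝓘(ℝ, V) x) : bet F σ s x v =
      σ (F (s, x)) (Matrix.vecCons (vel (V := V) F s x)
        fun i => mfderiv 𝓘(ℝ, V) 𝓘(ℝ, V) (fun x => F (s, x)) x (v i)) := rfl

variable {F : ℝ × X → X} {U : Set V} {φ : V → X}

theorem slice_smooth (hF : SmFam (V := V) F) (s : ℝ) :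
    ContMDiff 𝓘(ℝ, V) 𝓘(ℝ, V) ∞ (fun x => F (s, x)) :=
  ContMDiff.comp (I' := 𝓘(ℝ, ℝ).prod 𝓘(ℝ, V)) hF (contMDiff_const.prodMk contMDiff_id)

theorem par_smooth (hφ : SmoothParam U φ) :
    ContMDiffOn 𝓘(ℝ, ℝ × V) (𝓘(ℝ, ℝ).prod 𝓘(ℝ, V)) ∞ (fun q : ℝ × V => (q.1, φ q.2))
      (univ ×ˢ U) := by
  apply ContMDiffOn.prodMk
  · exact contDiff_fst.contMDiff.contMDiffOn
  · exact hφ.2.comp contDiff_snd.contMDiff.contMDiffOn (fun q hq => hq.2)

/-- the family in coordinates -/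
def fam (F : ℝ × X → X) (φ : V → X) : ℝ × V → X := F ∘ fun q => (q.1, φ q.2)

theorem fam_smooth (hF : SmFam (V := V) F) (hφ : SmoothParam U φ) :
    ContMDiffOn 𝓘(ℝ, ℝ × V) 𝓘(ℝ, V) ∞ (fam F φ) (univ ×ˢ U) :=
  ContMDiff.comp_contMDiffOn (I' := 𝓘(ℝ, ℝ).prod 𝓘(ℝ, V)) hF (par_smooth hφ)

theorem open_dom (hφ : SmoothParam U φ) : IsOpen ((univ : Set ℝ) ×ˢ U) := isOpen_univ.prod hφ.1

theorem fam_md (hF : SmFam (V := V) F) (hφ : SmoothParam U φ) (s : ℝ) {p : V} (hp : p ∈ U) :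
    MDifferentiableAt 𝓘(ℝ, ℝ × V) 𝓘(ℝ, V) (fam F φ) (s, p) :=
  ((fam_smooth hF hφ).contMDiffAt ((open_dom hφ).mem_nhds ⟨mem_univ s, hp⟩)).mdifferentiableAt
    (by simp)

/-- the pull-backs by the slices -/
theorem resV_PB (hF : SmFam (V := V) F) (hφ : SmoothParam U φ) {k : ℕ} (σ : Form V X k) (s : ℝ)
    {p : V} (hp : p ∈ U) :
    resV (PB (fam F φ) σ (s, p)) = pb φ (pull (fun x => F (s, x)) σ) p := by
  have h1 : fam F φ ∘ (fun p : V => (s, p)) = (fun x => F (s, x)) ∘ φ := rfl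
  have hd : HasFDerivAt (fun p : V => (s, p)) (ContinuousLinearMap.inr ℝ ℝ V) p :=
    hasFDerivAt_prodMk_right s p
  have h2 : PB (fam F φ ∘ (fun p : V => (s, p))) σ p =
      (PB (fam F φ) σ (s, p)).compContinuousLinearMap (fderiv ℝ (fun p : V => (s, p)) p) :=
    PB_comp σ (fam_md hF hφ s hp) hd.differentiableAt
  rw [h1, hd.fderiv] at h2
  have h3 : pb φ (pull (fun x => F (s, x)) σ) p = PB ((fun x => F (s, x)) ∘ φ) σ p :=
    PB_pull σ ((slice_smooth hF s (φ p)).mdifferentiableAt (by simp))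
      ((hφ.2.contMDiffAt (hφ.1.mem_nhds hp)).mdifferentiableAt (by simp))
  rw [h3, h2]
  rfl

theorem mfderiv_time (hF : SmFam (V := V) F) (hφ : SmoothParam U φ) (s : ℝ) {p : V} (hp : p ∈ U) :
    (mfderiv 𝓘(ℝ, ℝ × V) 𝓘(ℝ, V) (fam F φ) (s, p) (((1 : ℝ), (0 : V)) : ℝ × V) : V) =
      vel (V := V) F s (φ p) := by
  have h2 : HasMFDerivAt 𝓘(ℝ, ℝ) 𝓘(ℝ, ℝ × V) (fun t : ℝ => (t, p)) s
      (ContinuousLinearMap.inl ℝ ℝ V) := (hasFDerivAt_prodMk_left s p).hasMFDerivAt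
  have h3 := (HasMFDerivAt.comp s (g := fam F φ) (f := fun t : ℝ => (t, p))
    (fam_md hF hφ s hp).hasMFDerivAt h2).mfderiv
  have h4 : vel (V := V) F s (φ p) =
      mfderiv 𝓘(ℝ, ℝ) 𝓘(ℝ, V) (fam F φ ∘ fun t : ℝ => (t, p)) s (1 : ℝ) := rfl
  rw [h4, h3]
  rfl

theorem mfderiv_space (hF : SmFam (V := V) F) (hφ : SmoothParam U φ) (s : ℝ) {p : V} (hp : p ∈ U)
    (v : V) :
    (mfderiv 𝓘(ℝ, ℝ × V) 𝓘(ℝ, V) (fam F φ) (s, p) (((0 : ℝ), v) : ℝ × V) : V) =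
      mfderiv 𝓘(ℝ, V) 𝓘(ℝ, V) (fun x => F (s, x)) (φ p)
        (mfderiv 𝓘(ℝ, V) 𝓘(ℝ, V) φ p v) := by
  have h2 : HasMFDerivAt 𝓘(ℝ, V) 𝓘(ℝ, ℝ × V) (fun z : V => (s, z)) p
      (ContinuousLinearMap.inr ℝ ℝ V) := (hasFDerivAt_prodMk_right s p).hasMFDerivAt
  have h3 := (HasMFDerivAt.comp p (g := fam F φ) (f := fun z : V => (s, z))
    (fam_md hF hφ s hp).hasMFDerivAt h2).mfderiv
  have h8 := mfderiv_comp (I := 𝓘(ℝ, V)) (I' := 𝓘(ℝ, V)) (I'' := 𝓘(ℝ, V)) p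
    ((slice_smooth hF s (φ p)).mdifferentiableAt (by simp))
    ((hφ.2.contMDiffAt (hφ.1.mem_nhds hp)).mdifferentiableAt (by simp))
  have h9 : (fam F φ ∘ fun z : V => (s, z)) = (fun x => F (s, x)) ∘ φ := rfl
  rw [h9, h8] at h3
  exact (DFunLike.congr_fun h3 v).symm

/-- the contraction in coordinates -/
theorem resV_conT_PB (hF : SmFam (V := V) F) (hφ : SmoothParam U φ) {k : ℕ}
    (σ : Form V X (k + 1)) (s : ℝ) {p : V} (hp : p ∈ U) :
    resV (conT (PB (fam F φ) σ (s, p))) = pb φ (bet F σ s) p := by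
  ext v
  have h1 : resV (conT (PB (fam F φ) σ (s, p))) v =
      (show V [⋀^Fin (k + 1)]→L[ℝ] ℝ from σ (F (s, φ p))) fun i =>
        (mfderiv 𝓘(ℝ, ℝ × V) 𝓘(ℝ, V) (fam F φ) (s, p)
          ((Matrix.vecCons (((1 : ℝ), (0 : V)) : ℝ × V) (fun i => ((0 : ℝ), v i)) :
            Fin (k + 1) → ℝ × V) i) : V) := rfl
  have h2 : pb φ (bet F σ s) p v = (show V [⋀^Fin (k + 1)]→L[ℝ] ℝ from σ (F (s, φ p)))
      (Matrix.vecCons (show V from vel (V := V) F s (φ p)) fun i =>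
        (show V from mfderiv 𝓘(ℝ, V) 𝓘(ℝ, V) (fun x => F (s, x)) (φ p)
          (mfderiv 𝓘(ℝ, V) 𝓘(ℝ, V) φ p (v i)))) := rfl
  rw [h1, h2]
  congr 1
  funext i
  refine Fin.cases ?_ (fun i => ?_) i
  · exact mfderiv_time hF hφ s hp
  · exact mfderiv_space hF hφ s hp (v i)

variable [IsManifold 𝓘(ℝ, V) ∞ X]

/-- **Homotopy formula**: the derivative of the pull-backs of a closed form. -/
theorem hasDerivAt_pull (hF : SmFam (V := V) F) (hφ : SmoothParam U φ) {k : ℕ}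
    {σ : Form V X (k + 1)} (hσ : IsSmooth σ) (hc : IsClosedForm σ) (s : ℝ) {p : V} (hp : p ∈ U) :
    HasDerivAt (fun t => pb φ (pull (fun x => F (t, x)) σ) p)
      (extDeriv (pb φ (bet F σ s)) p) s := by
  have hD := open_dom hφ
  have hmem : (s, p) ∈ (univ : Set ℝ) ×ˢ U := ⟨mem_univ s, hp⟩
  have h1 := hasDerivAt_resV (G := PB (fam F φ) σ) (s := s) (p := p)
    (((PB_smooth hD (fam_smooth hF hφ) hσ).contDiffAt (hD.mem_nhds hmem)).differentiableAt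
      (by simp)) (PB_closed hD (fam_smooth hF hφ) hmem hσ hc)
  have h2 : (fun t => resV (PB (fam F φ) σ (t, p))) =
      fun t => pb φ (pull (fun x => F (t, x)) σ) p := by
    funext t
    exact resV_PB hF hφ σ t hp
  have h3 : (fun p' => resV (conT (PB (fam F φ) σ (s, p')))) =ᶠ[𝓝 p] pb φ (bet F σ s) := by
    filter_upwards [hφ.1.mem_nhds hp] with q hq using resV_conT_PB hF hφ σ s hq
  rw [h2, Filter.EventuallyEq.extDeriv_eq h3] at h1
  exact h1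

/-- smoothness of the contraction -/
theorem smooth_bet (hF : SmFam (V := V) F) {k : ℕ} {σ : Form V X (k + 1)} (hσ : IsSmooth σ)
    (s : ℝ) : IsSmooth (bet F σ s) := by
  intro U φ hφ
  have h1 := PB_smooth (open_dom hφ) (fam_smooth hF hφ) hσ
  have h2 : ContDiffOn ℝ ∞ (fun p => resV (conT (PB (fam F φ) σ (s, p)))) U := by
    have h3 : ContDiffOn ℝ ∞ (fun p : V => PB (fam F φ) σ (s, p)) U :=
      h1.comp (contDiff_const.prodMk contDiff_id).contDiffOn fun p hp => ⟨mem_univ s, hp⟩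
    exact ((resV (V := V) (k := k)).comp (conT (V := V) (k := k))).contDiff.comp_contDiffOn h3
  exact h2.congr fun p hp => (resV_conT_PB hF hφ σ s hp).symm

end

end Pool.Agent.Q235.MO
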