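import Pool.Agent.Q235.MO.Fam

/-!
Project MO: the pull-backs of a closed form by the maps of a smooth family are cohomologous.
-/

set_option autoImplicit false

open Set Filter Topology
open scoped Manifold ContDiff

noncomputable section

namespace Pool.Agent.Q235.MO

open Pool.Agent.Y501.SYP

section vec

variable {E : Type} [NormedAddCommGroup E] [NormedSpace ℝ E] [FiniteDimensional ℝ E]

/-- Differentiation under the integral sign. -/
theorem hasFDerivAt_intW {W : Type} [NormedAddCommGroup W] [NormedSpace ℝ W] [CompleteSpace W]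
    {k : ℝ × E → W} {U : Set E} (hU : IsOpen U)
    (hk : ContDiffOn ℝ 1 k (univ ×ˢ U)) {y₀ : E} (hy₀ : y₀ ∈ U) :
    HasFDerivAt (fun y => ∫ s in (0:ℝ)..1, k (s, y))
      (∫ s in (0:ℝ)..1, (fderiv ℝ k (s, y₀)).comp (ContinuousLinearMap.inr ℝ ℝ E)) y₀ := by
  have hopen : IsOpen ((univ : Set ℝ) ×ˢ U) := isOpen_univ.prod hU
  obtain ⟨δ, hδ, hδU⟩ := Metric.nhds_basis_closedBall.mem_iff.1 (hU.mem_nhds hy₀)
  have hcf : ContinuousOn (fderiv ℝ k) (univ ×ˢ U) := hk.continuousOn_fderiv_of_isOpen hopen le_rfl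
  have hcF' : ContinuousOn (fun q : ℝ × E => (fderiv ℝ k q).comp
      (ContinuousLinearMap.inr ℝ ℝ E)) (univ ×ˢ U) :=
    hcf.clm_comp continuousOn_const
  have hcomp : IsCompact (uIcc (0:ℝ) 1 ×ˢ Metric.closedBall y₀ δ) :=
    isCompact_uIcc.prod (isCompact_closedBall _ _)
  obtain ⟨C, hC⟩ := hcomp.exists_bound_of_continuousOn
    (hcF'.mono (prod_mono (subset_univ _) hδU))
  have hcont : ∀ y ∈ U, Continuous (fun s : ℝ => k (s, y)) := by
    intro y hy
    rw [← continuousOn_univ]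
    exact hk.continuousOn.comp (by fun_prop) (fun s _ => ⟨mem_univ _, hy⟩)
  have hcont' : ∀ y ∈ U, Continuous (fun s : ℝ => (fderiv ℝ k (s, y)).comp
      (ContinuousLinearMap.inr ℝ ℝ E)) := by
    intro y hy
    rw [← continuousOn_univ]
    exact hcF'.comp (by fun_prop) (fun s _ => ⟨mem_univ _, hy⟩)
  refine intervalIntegral.hasFDerivAt_integral_of_dominated_of_fderiv_le
    (F := fun y s => k (s, y))
    (F' := fun y s => (fderiv ℝ k (s, y)).comp (ContinuousLinearMap.inr ℝ ℝ E))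
    (bound := fun _ => C) (Metric.closedBall_mem_nhds y₀ hδ) ?_ ?_ ?_ ?_ ?_ ?_
  · filter_upwards [hU.mem_nhds hy₀] with y hy
    exact (hcont y hy).aestronglyMeasurable
  · exact (hcont y₀ hy₀).intervalIntegrable _ _
  · exact (hcont' y₀ hy₀).aestronglyMeasurable
  · refine Filter.Eventually.of_forall fun t ht y hy => ?_
    exact hC (t, y) ⟨uIoc_subset_uIcc ht, hy⟩
  · exact continuous_const.intervalIntegrable _ _
  · refine Filter.Eventually.of_forall fun t ht y hy => ?_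
    have hd : DifferentiableAt ℝ k (t, y) :=
      (hk.contDiffAt (hopen.mem_nhds ⟨mem_univ _, hδU hy⟩)).differentiableAt (by simp)
    exact hd.hasFDerivAt.comp y (hasFDerivAt_prodMk_right t y)

theorem clm_intW {W W' : Type} [NormedAddCommGroup W] [NormedSpace ℝ W] [CompleteSpace W]
    [NormedAddCommGroup W'] [NormedSpace ℝ W'] [CompleteSpace W'] (L : (E →L[ℝ] W) →L[ℝ] W')
    {k : ℝ × E → W} {U : Set E} (hU : IsOpen U)
    (hk : ContDiffOn ℝ 1 k (univ ×ˢ U)) {y₀ : E} (hy₀ : y₀ ∈ U) :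
    L (∫ s in (0:ℝ)..1, (fderiv ℝ k (s, y₀)).comp (ContinuousLinearMap.inr ℝ ℝ E)) =
      (∫ s in (0:ℝ)..1, L ((fderiv ℝ k (s, y₀)).comp (ContinuousLinearMap.inr ℝ ℝ E))) ∧
    IntervalIntegrable (fun s => L ((fderiv ℝ k (s, y₀)).comp (ContinuousLinearMap.inr ℝ ℝ E)))
      MeasureTheory.volume 0 1 := by
  have hopen : IsOpen ((univ : Set ℝ) ×ˢ U) := isOpen_univ.prod hU
  have hcont' : Continuous (fun s : ℝ => (fderiv ℝ k (s, y₀)).comp
      (ContinuousLinearMap.inr ℝ ℝ E)) := by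
    rw [← continuousOn_univ]
    have hcf : ContinuousOn (fderiv ℝ k) (univ ×ˢ U) :=
      hk.continuousOn_fderiv_of_isOpen hopen le_rfl
    exact (hcf.clm_comp continuousOn_const).comp (by fun_prop) (fun s _ => ⟨mem_univ _, hy₀⟩)
  exact ⟨(ContinuousLinearMap.intervalIntegral_comp_comm L
    (hcont'.intervalIntegrable _ _)).symm, (L.continuous.comp hcont').intervalIntegrable _ _⟩

theorem contDiffOn_intW_nat {U : Set E} (hU : IsOpen U) (n : ℕ) :
    ∀ (W : Type) [NormedAddCommGroup W] [NormedSpace ℝ W] [CompleteSpace W] (k : ℝ × E → W),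
      ContDiffOn ℝ ∞ k (univ ×ˢ U) →
      ContDiffOn ℝ n (fun y => ∫ s in (0:ℝ)..1, k (s, y)) U := by
  have hopen : IsOpen ((univ : Set ℝ) ×ˢ U) := isOpen_univ.prod hU
  induction n with
  | zero =>
    intro W _ _ _ k hk
    rw [Nat.cast_zero, contDiffOn_zero]
    intro y hy
    exact (hasFDerivAt_intW hU (hk.of_le (by simp)) hy).continuousAt.continuousWithinAt
  | succ n ih =>
    intro W _ _ _ k hk
    have h2 : ContDiffOn ℝ ∞ (fun q : ℝ × E => (fderiv ℝ k q).comp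
        (ContinuousLinearMap.inr ℝ ℝ E)) (univ ×ˢ U) :=
      (hk.fderiv_of_isOpen hopen (m := ∞) (by simp)).clm_comp contDiffOn_const
    have h3 := ih (E →L[ℝ] W) _ h2
    have h1 : ContDiffOn ℝ ((n : ℕ∞ω) + 1) (fun y => ∫ s in (0:ℝ)..1, k (s, y)) U := by
      rw [contDiffOn_succ_iff_fderiv_of_isOpen hU]
      refine ⟨fun y hy => (hasFDerivAt_intW hU (hk.of_le (by simp))
        hy).differentiableAt.differentiableWithinAt, by simp, ?_⟩
      exact h3.congr fun y hy => (hasFDerivAt_intW hU (hk.of_le (by simp)) hy).fderiv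
    simpa using h1

theorem contDiffOn_intW {U : Set E} (hU : IsOpen U)
    {W : Type} [NormedAddCommGroup W] [NormedSpace ℝ W] [CompleteSpace W] {k : ℝ × E → W}
    (hk : ContDiffOn ℝ ∞ k (univ ×ˢ U)) :
    ContDiffOn ℝ ∞ (fun y => ∫ s in (0:ℝ)..1, k (s, y)) U :=
  contDiffOn_infty.2 fun n => contDiffOn_intW_nat hU n W k hk

end vec

section

variable {V : Type} [NormedAddCommGroup V] [NormedSpace ℝ V] [FiniteDimensional ℝ V]
  {X : Type} [TopologicalSpace X] [ChartedSpace V X] [IsManifold 𝓘(ℝ, V) ∞ X]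

/-- the integral of the contractions -/
def intB {k : ℕ} (F : ℝ × X → X) (σ : Form V X (k + 1)) : Form V X k := fun x =>
  (show V [⋀^Fin k]→L[ℝ] ℝ from
    ∫ s in (0 : ℝ)..1, (show V [⋀^Fin k]→L[ℝ] ℝ from bet F σ s x))

theorem hk_smooth {F : ℝ × X → X} (hF : SmFam (V := V) F) {U : Set V} {φ : V → X}
    (hφ : SmoothParam U φ) {k : ℕ} {σ : Form V X (k + 1)} (hσ : IsSmooth σ) :
    ContDiffOn ℝ ∞ (fun q : ℝ × V => resV (conT (PB (fam F φ) σ q))) (univ ×ˢ U) :=
  ((resV (V := V) (k := k)).comp (conT (V := V) (k := k))).contDiff.comp_contDiffOn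
    (PB_smooth (open_dom hφ) (fam_smooth hF hφ) hσ)

theorem bet_cont {F : ℝ × X → X} (hF : SmFam (V := V) F) {k : ℕ} {σ : Form V X (k + 1)}
    (hσ : IsSmooth σ) (x : X) :
    Continuous fun s : ℝ => (show V [⋀^Fin k]→L[ℝ] ℝ from bet F σ s x) := by
  have hpar : SmoothParam (chartAt V x).target (chartAt V x).symm :=
    ⟨(chartAt V x).open_target, contMDiffOn_chart_symm⟩
  have hp : chartAt V x x ∈ (chartAt V x).target := mem_chart_target V x
  have hcd : (chartAt V x).MDifferentiable 𝓘(ℝ, V) 𝓘(ℝ, V) :=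
    mdifferentiable_chart (I := 𝓘(ℝ, V)) x
  obtain ⟨A, hA⟩ : ∃ A : V ≃L[ℝ] V, ∀ v, A v =
      mfderiv 𝓘(ℝ, V) 𝓘(ℝ, V) (chartAt V x).symm (chartAt V x x) v :=
    ⟨hcd.symm.mfderiv hp, fun v => rfl⟩
  have h1 : Continuous fun s : ℝ => pb (chartAt V x).symm (bet F σ s) (chartAt V x x) := by
    have h2 : Continuous fun s : ℝ =>
        resV (conT (PB (fam F (chartAt V x).symm) σ (s, chartAt V x x))) := by
      rw [← continuousOn_univ]
      exact (hk_smooth hF hpar hσ).continuousOn.comp (by fun_prop) fun s _ => ⟨mem_univ _, hp⟩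
    exact h2.congr fun s => resV_conT_PB hF hpar σ s hp
  have h3 : (fun s : ℝ => (show V [⋀^Fin k]→L[ℝ] ℝ from bet F σ s x)) = fun s =>
      ContinuousAlternatingMap.compContinuousLinearMapCLM (A.symm : V →L[ℝ] V)
        (pb (chartAt V x).symm (bet F σ s) (chartAt V x x)) := by
    funext s
    ext v
    show (show V [⋀^Fin k]→L[ℝ] ℝ from bet F σ s x) v =
      (show V [⋀^Fin k]→L[ℝ] ℝ from bet F σ s ((chartAt V x).symm (chartAt V x x))) fun i =>
        (mfderiv 𝓘(ℝ, V) 𝓘(ℝ, V) (chartAt V x).symm (chartAt V x x) (A.symm (v i)) : V)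
    have h4 : ∀ i, (mfderiv 𝓘(ℝ, V) 𝓘(ℝ, V) (chartAt V x).symm (chartAt V x x)
        (A.symm (v i)) : V) = v i := fun i => by rw [← hA, A.apply_symm_apply]
    have h5 : (chartAt V x).symm (chartAt V x x) = x :=
      (chartAt V x).left_inv (mem_chart_source V x)
    have gen : ∀ (z : X) (_ : z = x) (a b : Fin k → V), a = b →
        (show V [⋀^Fin k]→L[ℝ] ℝ from bet F σ s x) b =
          (show V [⋀^Fin k]→L[ℝ] ℝ from bet F σ s z) a := by
      rintro z rfl a b rfl
      rfl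
    exact gen _ h5 _ _ (funext h4)
  rw [h3]
  exact (ContinuousLinearMap.continuous _).comp h1

theorem pb_intB {F : ℝ × X → X} (hF : SmFam (V := V) F) {k : ℕ} {σ : Form V X (k + 1)}
    (hσ : IsSmooth σ) {U : Set V} {φ : V → X} (hφ : SmoothParam U φ) {p : V} (hp : p ∈ U) :
    pb φ (intB F σ) p = ∫ s in (0 : ℝ)..1, resV (conT (PB (fam F φ) σ (s, p))) := by
  have h1 : pb φ (intB F σ) p = ContinuousAlternatingMap.compContinuousLinearMapCLM
      (show V →L[ℝ] V from mfderiv 𝓘(ℝ, V) 𝓘(ℝ, V) φ p)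
        (∫ s in (0 : ℝ)..1, (show V [⋀^Fin k]→L[ℝ] ℝ from bet F σ s (φ p))) := rfl
  rw [h1, ← ContinuousLinearMap.intervalIntegral_comp_comm _
    ((bet_cont hF hσ (φ p)).intervalIntegrable _ _)]
  congr 1
  funext s
  rw [resV_conT_PB hF hφ σ s hp]
  rfl

theorem smooth_intB {F : ℝ × X → X} (hF : SmFam (V := V) F) {k : ℕ} {σ : Form V X (k + 1)}
    (hσ : IsSmooth σ) : IsSmooth (intB F σ) := by
  intro U φ hφ
  exact (contDiffOn_intW hφ.1 (hk_smooth hF hφ hσ)).congr fun p hp => pb_intB hF hσ hφ hp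

/-- **The pull-backs of a closed form by homotopic maps are cohomologous.** -/
theorem isD_intB {F : ℝ × X → X} (hF : SmFam (V := V) F) {k : ℕ} {σ : Form V X (k + 1)}
    (hσ : IsSmooth σ) (hc : IsClosedForm σ) :
    IsD (intB F σ) (fun x => pull (fun x => F (1, x)) σ x - pull (fun x => F (0, x)) σ x) := by
  intro U φ hφ p hp
  have hh := hk_smooth hF hφ hσ
  have hD := open_dom hφ
  have h1 : pb φ (intB F σ) =ᶠ[𝓝 p]
      fun p => ∫ s in (0 : ℝ)..1, resV (conT (PB (fam F φ) σ (s, p))) := by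
    filter_upwards [hφ.1.mem_nhds hp] with q hq using pb_intB hF hσ hφ hq
  rw [Filter.EventuallyEq.extDeriv_eq h1]
  unfold extDeriv
  rw [(hasFDerivAt_intW hφ.1 (hh.of_le (by simp)) hp).fderiv]
  set h : ℝ × V → V [⋀^Fin k]→L[ℝ] ℝ := fun q => resV (conT (PB (fam F φ) σ q)) with hdef
  obtain ⟨h2, hint⟩ := clm_intW (ContinuousAlternatingMap.alternatizeUncurryFinCLM ℝ V ℝ
    (n := k)) hφ.1 (hh.of_le (by simp)) hp
  refine h2.trans ?_
  have h3 : ∀ s : ℝ, ContinuousAlternatingMap.alternatizeUncurryFin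
      ((fderiv ℝ h (s, p)).comp (ContinuousLinearMap.inr ℝ ℝ V)) =
        extDeriv (pb φ (bet F σ s)) p := by
    intro s
    have h4 : (fun p' => h (s, p')) =ᶠ[𝓝 p] pb φ (bet F σ s) := by
      filter_upwards [hφ.1.mem_nhds hp] with q hq using resV_conT_PB hF hφ σ s hq
    rw [← Filter.EventuallyEq.extDeriv_eq h4]
    unfold extDeriv
    have h6 : HasFDerivAt h (fderiv ℝ h (s, p)) (s, p) :=
      ((hh.contDiffAt (hD.mem_nhds ⟨mem_univ _, hp⟩)).differentiableAt (by simp)).hasFDerivAt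
    have h7 : HasFDerivAt (fun p' => h (s, p'))
        ((fderiv ℝ h (s, p)).comp (ContinuousLinearMap.inr ℝ ℝ V)) p :=
      h6.comp p (hasFDerivAt_prodMk_right s p)
    rw [h7.fderiv]
  refine (intervalIntegral.integral_eq_sub_of_hasDerivAt
      (f := fun s => pb φ (pull (fun x => F (s, x)) σ) p) (fun s _ => ?_) hint).trans ?_
  · have h8 := hasDerivAt_pull hF hφ hσ hc s hp
    rw [← h3] at h8
    exact h8
  · rfl

end

end Pool.Agent.Q235.MO
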