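import Pool.Agent.Q235.MO.Path
import Pool.Agent.Q235.MO.Int

/-!
Project MO: the pull-backs of a symplectic form by a family of maps; from paths of thinly
degenerate forms to isotopies.
-/

set_option autoImplicit false

open Set Filter Topology
open scoped Manifold ContDiff

noncomputable section

namespace Pool.Agent.Q235.MO

open Pool.Agent.Y501.SYP
open Pool.Agent.Q235.SZ (SForm addS addS_continuous InClass Nondeg Ex)
open Pool.Agent.Q235.SN Pool.Agent.Q235.SP

section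

variable {V : Type} [NormedAddCommGroup V] [NormedSpace ℝ V] [FiniteDimensional ℝ V]
  {X : Type} [TopologicalSpace X] [ChartedSpace V X] [IsManifold 𝓘(ℝ, V) ∞ X]

/-- the pull-backs by the maps of a family starting at a map which preserves `τ` are cohomologous
to `τ` -/
theorem inClass_fam {F : ℝ × X → X} (hF : SmFam (V := V) F) {τ : Form V X 2} (hτ : IsSmooth τ)
    (hc : IsClosedForm τ) (h0 : pull (fun x => F (0, x)) τ = τ) (t : ℝ) :
    InClass τ (pull (fun x => F (t, x)) τ) := by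
  refine ⟨closed_pull hτ hc (slice_smooth hF t), ?_⟩
  have hG : SmFam (V := V) (fun q : ℝ × X => F (t * q.1, q.2)) := by
    refine ContMDiff.comp (I' := 𝓘(ℝ, ℝ).prod 𝓘(ℝ, V)) hF ?_
    refine ContMDiff.prodMk ?_ contMDiff_snd
    have h5 : ContMDiff 𝓘(ℝ, ℝ) 𝓘(ℝ, ℝ) ∞ (fun s : ℝ => t * s) :=
      (contDiff_const.mul contDiff_id).contMDiff
    exact h5.comp contMDiff_fst
  refine ⟨intB (fun q : ℝ × X => F (t * q.1, q.2)) τ, smooth_intB hG hτ, ?_⟩
  have h1 := isD_intB hG hτ hc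
  have h2 : (fun x => F (t * 0, x)) = fun x => F (0, x) := by rw [mul_zero]
  have h3 : (fun x => F (t * 1, x)) = fun x => F (t, x) := by rw [mul_one]
  have h4 : (fun x => pull (fun x => F (t * 1, x)) τ x - pull (fun x => F (t * 0, x)) τ x) =
      fun x => pull (fun x => F (t, x)) τ x - τ x := by
    rw [h2, h3, h0]
  change IsD _ (fun x => pull (fun x => F (t * 1, x)) τ x - pull (fun x => F (t * 0, x)) τ x) at h1
  rw [h4] at h1
  exact h1

omit [FiniteDimensional ℝ V] in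
/-- if `τ` and its pull-back by `f` are related by a diffeomorphism isotopic to the identity, then
`f` is isotopic to a diffeomorphism preserving `τ` -/
theorem sympl_of_rel {τ : Form V X 2} {f : X → X} (hf : IsDiffeo V f)
    (h : Rel τ (pull f τ)) : ∃ g : X → X, (IsDiffeo V g ∧ pull g τ = τ) ∧ Isotopic V g f := by
  obtain ⟨h1, hiso, hp⟩ := h
  have h2 : Isotopic V f (f ∘ h1) := hf.isotopic.comp hiso
  have h3 := h2.symm
  refine ⟨f ∘ h1, ⟨?_, ?_⟩, h3⟩
  · obtain ⟨K, L, hK, hL, k1, k2, k3, k4⟩ := h3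
    refine ⟨h2.smooth_right, fun x => L (0, x), slice_smooth hL 0, fun x => ?_, fun x => ?_⟩
    · rw [← k3 x]
      exact k1 0 x
    · rw [← k3]
      exact k2 0 x
  · rw [← pull_pull τ hf.1 hiso.smooth_right]
    exact hp

end

section

variable {d m : ℕ} {X : Type} [TopologicalSpace X] [ChartedSpace (ES d) X]
  [IsManifold 𝓘(ℝ, ES d) ∞ X]

theorem rT_self (e : Module.Basis (Fin (m + 1) × Bool) ℝ (ES d)) {τ : Form (ES d) X 2}
    (hτ : ∀ x, top (n := m + 1) (V := ES d) (τ x) e ≠ 0) (x : X) : rT e τ τ x = 1 :=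
  div_self (hτ x)

/-- adding the perturbation -/
theorem rel_push [CompactSpace X] [T2Space X] (e : Module.Basis (Fin (m + 1) × Bool) ℝ (ES d))
    {τ σ ρ : SForm (ES d) X} (hτ : ∀ x, top (n := m + 1) (V := ES d) (τ.1 x) e ≠ 0)
    (hσ : InClass τ.1 σ.1) (hρ : Ex ρ) (h0 : ∀ x, 0 < rT e τ.1 σ.1 x)
    (h : ∀ t : ℝ, 0 < t → t ≤ 1 → ∀ x, 0 < rT e τ.1 (addS σ t ρ).1 x) :
    Rel σ.1 (addS σ 1 ρ).1 ∧ Rel (addS σ 1 ρ).1 σ.1 := by
  have hc : Continuous fun t : unitInterval => addS σ (t : ℝ) ρ :=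
    addS_continuous continuous_const continuous_subtype_val continuous_const
  have hz : (addS σ ((0 : unitInterval) : ℝ) ρ).1 = σ.1 := by
    funext x
    ext v
    change σ.1 x v + (0 : ℝ) * ρ.1 x v = σ.1 x v
    ring
  have hpos : ∀ (t : unitInterval) (x : X), 0 < rT e τ.1 (addS σ (t : ℝ) ρ).1 x := by
    intro t x
    rcases eq_or_lt_of_le t.2.1 with ht | ht
    · have h1 : (addS σ (t : ℝ) ρ).1 = σ.1 := by
        have h2 : t = 0 := Subtype.ext ht.symm
        rw [h2]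
        exact hz
      exact lt_of_lt_of_eq (h0 x) (congrArg (fun s => rT e τ.1 s x) h1).symm
    · exact h _ ht t.2.2 x
  have hcl : ∀ t : unitInterval, InClass τ.1 (addS σ (t : ℝ) ρ).1 := fun t =>
    Pool.Agent.Q235.SZ.inClass_add _ hσ hρ
  have h1 := rel_path e hτ hc hcl hpos 0 1
  have h2 := rel_path e hτ hc hcl hpos 1 0
  have h3 : (addS σ ((1 : unitInterval) : ℝ) ρ).1 = (addS σ 1 ρ).1 := rfl
  rw [h3, hz] at h1 h2
  exact ⟨h1, h2⟩

/-- **A path of thinly degenerate forms in the class.** -/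
theorem rel_thin [CompactSpace X] [T2Space X] (e : Module.Basis (Fin (m + 1) × Bool) ℝ (ES d))
    {τ : SForm (ES d) X} (hτ : ∀ x, top (n := m + 1) (V := ES d) (τ.1 x) e ≠ 0)
    {c : unitInterval → SForm (ES d) X} (hc : Continuous c) (hcl : ∀ t, InClass τ.1 (c t).1)
    (hgood : ∀ t, GoodN e τ.1 (c t).1) (h0 : ∀ x, 0 < rT e τ.1 (c 0).1 x)
    (h1 : ∀ x, 0 < rT e τ.1 (c 1).1 x) : Rel (c 0).1 (c 1).1 := by
  obtain ⟨ρ, hρ, hEx, hpos⟩ := push e hτ hc hgood
  have hc' : Continuous fun t : unitInterval => addS (c t) 1 (ρ t) :=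
    addS_continuous hc continuous_const hρ
  have h2 := rel_path e hτ hc' (fun t => Pool.Agent.Q235.SZ.inClass_add 1 (hcl t) (hEx t))
    (fun t x => hpos 1 one_pos le_rfl t x) 0 1
  have h3 := (rel_push e hτ (hcl 0) (hEx 0) h0 fun t ht ht1 x => hpos t ht ht1 0 x).1
  have h4 := (rel_push e hτ (hcl 1) (hEx 1) h1 fun t ht ht1 x => hpos t ht ht1 1 x).2
  exact rel_trans h3 (rel_trans h2 h4)

/-- the top power of a pull-back -/
theorem top_pull (e : Module.Basis (Fin (m + 1) × Bool) ℝ (ES d)) (τ : Form (ES d) X 2)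
    (f : X → X) (x : X) :
    top (n := m + 1) (V := ES d) (pull f τ x) e =
      top (n := m + 1) (V := ES d) (τ (f x)) e *
        e.det (fun i => (mfderiv 𝓘(ℝ, ES d) 𝓘(ℝ, ES d) f x (e i) : ES d)) := by
  have h1 : top (n := m + 1) (V := ES d) (pull f τ x) e =
      top (n := m + 1) (V := ES d) (τ (f x))
        (fun i => (mfderiv 𝓘(ℝ, ES d) 𝓘(ℝ, ES d) f x (e i) : ES d)) := by
    refine (wedN_apply (V := ES d) _ _).trans (Eq.trans ?_ (wedN_apply (V := ES d) _ _).symm)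
    refine Finset.sum_congr rfl fun π _ => ?_
    congr 1
    refine Finset.prod_congr rfl fun i _ => ?_
    show (show (ES d) [⋀^Fin 2]→L[ℝ] ℝ from τ (f x)) (fun j =>
      (mfderiv 𝓘(ℝ, ES d) 𝓘(ℝ, ES d) f x
        ((![e (π (i, false)), e (π (i, true))] : Fin 2 → ES d) j) : ES d)) = _
    congr 1
    funext j
    fin_cases j <;> rfl
  rw [h1]
  exact wedN_frame (V := ES d) e (fun _ => τ (f x)) _

theorem det_ne (e : Module.Basis (Fin (m + 1) × Bool) ℝ (ES d)) {f : X → X}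
    (hf : IsDiffeo (ES d) f) (x : X) :
    e.det (fun i => (mfderiv 𝓘(ℝ, ES d) 𝓘(ℝ, ES d) f x (e i) : ES d)) ≠ 0 := by
  obtain ⟨h1, g, h2, h3, h4⟩ := hf
  have hc := mfderiv_comp (I := 𝓘(ℝ, ES d)) (I' := 𝓘(ℝ, ES d)) (I'' := 𝓘(ℝ, ES d)) x
    ((h2 (f x)).mdifferentiableAt (by simp)) ((h1 x).mdifferentiableAt (by simp))
  have hid : g ∘ f = id := funext h3
  rw [hid, mfderiv_id] at hc
  let A : ES d →ₗ[ℝ] ES d := ContinuousLinearMap.toLinearMap
    (show ES d →L[ℝ] ES d from mfderiv 𝓘(ℝ, ES d) 𝓘(ℝ, ES d) f x)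
  let B : ES d →ₗ[ℝ] ES d := ContinuousLinearMap.toLinearMap
    (show ES d →L[ℝ] ES d from mfderiv 𝓘(ℝ, ES d) 𝓘(ℝ, ES d) g (f x))
  have hBA : B ∘ₗ A = LinearMap.id := by
    refine LinearMap.ext fun v => ?_
    have h5 := DFunLike.congr_fun hc v
    exact h5.symm
  have hdet : LinearMap.det B * LinearMap.det A = 1 := by
    rw [← LinearMap.det_comp, hBA, LinearMap.det_id]
  have h6 : e.det (fun i => (mfderiv 𝓘(ℝ, ES d) 𝓘(ℝ, ES d) f x (e i) : ES d)) =
      LinearMap.det A := by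
    have h7 := Module.Basis.det_comp e A e
    have h8 : (A ∘ e : Fin (m + 1) × Bool → ES d) =
        fun i => (mfderiv 𝓘(ℝ, ES d) 𝓘(ℝ, ES d) f x (e i) : ES d) := rfl
    rw [← h8, h7, Module.Basis.det_self, mul_one]
  rw [h6]
  intro h0
  rw [h0, mul_zero] at hdet
  exact zero_ne_one hdet

theorem rT_pull_ne (e : Module.Basis (Fin (m + 1) × Bool) ℝ (ES d)) {τ : Form (ES d) X 2}
    (hτ : ∀ x, top (n := m + 1) (V := ES d) (τ x) e ≠ 0) {f : X → X} (hf : IsDiffeo (ES d) f)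
    (x : X) : rT e τ (pull f τ) x ≠ 0 := by
  have h1 : rT e τ (pull f τ) x = top (n := m + 1) (V := ES d) (pull f τ x) e /
    top (n := m + 1) (V := ES d) (τ x) e := rfl
  rw [h1, top_pull]
  exact div_ne_zero (mul_ne_zero (hτ _) (det_ne e hf x)) (hτ x)

/-- the pull-backs by an isotopy which starts at a diffeomorphism preserving `τ` are positive -/
theorem rT_isotopy (e : Module.Basis (Fin (m + 1) × Bool) ℝ (ES d)) {τ : SForm (ES d) X}
    (hτ : ∀ x, top (n := m + 1) (V := ES d) (τ.1 x) e ≠ 0) {K L : ℝ × X → X}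
    (hK : SmFam (V := ES d) K) (hL : SmFam (V := ES d) L) (h1 : ∀ s x, L (s, K (s, x)) = x)
    (h2 : ∀ s x, K (s, L (s, x)) = x) (h0 : pull (fun x => K (0, x)) τ.1 = τ.1) (t : ℝ) (x : X) :
    0 < rT e τ.1 (pull (fun x => K (t, x)) τ.1) x := by
  have hd : ∀ s, IsDiffeo (ES d) fun x => K (s, x) := fun s =>
    ⟨slice_smooth hK s, fun x => L (s, x), slice_smooth hL s, h1 s, h2 s⟩
  have hc : Continuous fun s : ℝ => rT e τ.1 (pull (fun x => K (s, x)) τ.1) x := by
    have h3 := rT_cont e hτ (pull_continuous hK τ)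
    exact h3.comp (f := fun s : ℝ => (s, x)) (continuous_id.prodMk continuous_const)
  have hat0 : rT e τ.1 (pull (fun x => K (0, x)) τ.1) x = 1 := by
    rw [h0]
    exact rT_self e hτ x
  by_contra hneg
  push Not at hneg
  have h4 : (0 : ℝ) ∈ range fun s : ℝ => rT e τ.1 (pull (fun x => K (s, x)) τ.1) x :=
    mem_range_of_exists_le_of_exists_ge hc ⟨t, hneg⟩ ⟨0, by rw [hat0]; exact zero_le_one⟩
  obtain ⟨s, hs⟩ := h4
  exact rT_pull_ne e hτ (hd s) x hs

end

end Pool.Agent.Q235.MO
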