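import Pool.Agent.Q235.MO.PB

/-!
Project MO: the homotopy formula for closed forms on `ℝ × V`.
-/

set_option autoImplicit false

open Set Filter Topology
open scoped Manifold ContDiff

noncomputable section

namespace Pool.Agent.Q235.MO

open Pool.Agent.Y501.SYP

section cal

variable {V : Type} [NormedAddCommGroup V] [NormedSpace ℝ V]

/-- restriction to `0 × V` -/
def resV {k : ℕ} : ((ℝ × V) [⋀^Fin k]→L[ℝ] ℝ) →L[ℝ] V [⋀^Fin k]→L[ℝ] ℝ :=
  ContinuousAlternatingMap.compContinuousLinearMapCLM (ContinuousLinearMap.inr ℝ ℝ V)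

theorem resV_apply {k : ℕ} (f : (ℝ × V) [⋀^Fin k]→L[ℝ] ℝ) (v : Fin k → V) :
    resV f v = f fun i => ((0 : ℝ), v i) := rfl

/-- contraction with the unit vector of `ℝ` -/
def conT {k : ℕ} : ((ℝ × V) [⋀^Fin (k + 1)]→L[ℝ] ℝ) →L[ℝ] (ℝ × V) [⋀^Fin k]→L[ℝ] ℝ :=
  (ContinuousLinearMap.apply ℝ ((ℝ × V) [⋀^Fin k]→L[ℝ] ℝ) (((1 : ℝ), (0 : V)) : ℝ × V)).comp
    (ContinuousAlternatingMap.curryLeftLI (𝕜 := ℝ) (E := ℝ × V) (F := ℝ)
      (n := k)).toContinuousLinearMap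

theorem conT_apply {k : ℕ} (f : (ℝ × V) [⋀^Fin (k + 1)]→L[ℝ] ℝ) (v : Fin k → ℝ × V) :
    conT f v = f (Matrix.vecCons ((1 : ℝ), (0 : V)) v) := rfl

theorem removeNth_succ {α : Type} {n : ℕ} (i : Fin (n + 1)) (a : α) (u : Fin (n + 1) → α) :
    (Fin.removeNth i.succ (Matrix.vecCons a u : Fin (n + 2) → α)) =
      Matrix.vecCons a (Fin.removeNth i u) := by
  funext j
  refine Fin.cases ?_ (fun j => ?_) j
  · simp [Fin.removeNth]
  · simp [Fin.removeNth]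

/-- **Homotopy formula.** -/
theorem hasDerivAt_resV {k : ℕ} {G : ℝ × V → (ℝ × V) [⋀^Fin (k + 1)]→L[ℝ] ℝ} {s : ℝ} {p : V}
    (hG : DifferentiableAt ℝ G (s, p)) (hc : extDeriv G (s, p) = 0) :
    HasDerivAt (fun s' => resV (G (s', p)))
      (extDeriv (fun p' => resV (conT (G (s, p')))) p) s := by
  have h1 : HasDerivAt (fun s' => G (s', p)) (fderiv ℝ G (s, p) (((1 : ℝ), (0 : V)))) s :=
    hG.hasFDerivAt.comp_hasDerivAt s
      ((hasDerivAt_id s).prodMk (hasDerivAt_const s p))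
  have h2 : HasDerivAt (fun s' => resV (G (s', p)))
      (resV (fderiv ℝ G (s, p) (((1 : ℝ), (0 : V))))) s :=
    (resV (V := V) (k := k + 1)).hasFDerivAt.comp_hasDerivAt s h1
  have h3 : HasFDerivAt (fun p' => resV (conT (G (s, p'))))
      (((resV (V := V) (k := k)).comp (conT (V := V) (k := k))).comp
        ((fderiv ℝ G (s, p)).comp (ContinuousLinearMap.inr ℝ ℝ V))) p := by
    have h4 : HasFDerivAt (fun p' : V => G (s, p'))
        ((fderiv ℝ G (s, p)).comp (ContinuousLinearMap.inr ℝ ℝ V)) p :=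
      hG.hasFDerivAt.comp p (hasFDerivAt_prodMk_right s p)
    exact ((resV (V := V) (k := k)).comp (conT (V := V) (k := k))).hasFDerivAt.comp p h4
  refine h2.congr_deriv ?_
  unfold extDeriv at hc ⊢
  rw [h3.fderiv]
  ext v
  have h5 := DFunLike.congr_fun hc
    (Matrix.vecCons (((1 : ℝ), (0 : V)) : ℝ × V) fun i => ((0 : ℝ), v i))
  rw [ContinuousAlternatingMap.alternatizeUncurryFin_apply, Fin.sum_univ_succ] at h5
  rw [ContinuousAlternatingMap.alternatizeUncurryFin_apply]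
  have h6 : ∀ i : Fin (k + 1), (-1 : ℤ) ^ (i.succ : Fin (k + 2)).val •
      (fderiv ℝ G (s, p) ((Matrix.vecCons (((1 : ℝ), (0 : V)) : ℝ × V)
        (fun i => ((0 : ℝ), v i)) : Fin (k + 2) → ℝ × V) i.succ))
        (Fin.removeNth i.succ (Matrix.vecCons (((1 : ℝ), (0 : V)) : ℝ × V)
          (fun i => ((0 : ℝ), v i)))) =
      - ((-1 : ℤ) ^ i.val • ((((resV (V := V) (k := k)).comp (conT (V := V) (k := k))).comp
        ((fderiv ℝ G (s, p)).comp (ContinuousLinearMap.inr ℝ ℝ V))) (v i)) (i.removeNth v)) := by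
    intro i
    rw [removeNth_succ]
    have e1 : (fun j => ((0 : ℝ), (i.removeNth v) j)) =
        i.removeNth (fun i => ((0 : ℝ), v i)) := rfl
    show _ = - ((-1 : ℤ) ^ i.val • (fderiv ℝ G (s, p) ((0 : ℝ), v i)) (Matrix.vecCons
      (((1 : ℝ), (0 : V)) : ℝ × V) (fun j => ((0 : ℝ), (i.removeNth v) j))))
    rw [e1, Fin.val_succ, pow_succ, Matrix.cons_val_succ]
    simp
  rw [Finset.sum_congr rfl fun i _ => h6 i, Finset.sum_neg_distrib] at h5
  have h7 : ((-1 : ℤ) ^ (0 : Fin (k + 2)).val • (fderiv ℝ G (s, p)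
      ((Matrix.vecCons (((1 : ℝ), (0 : V)) : ℝ × V)
        (fun i => ((0 : ℝ), v i)) : Fin (k + 2) → ℝ × V) 0))
        (Fin.removeNth 0 (Matrix.vecCons (((1 : ℝ), (0 : V)) : ℝ × V)
          (fun i => ((0 : ℝ), v i))))) = resV (fderiv ℝ G (s, p) (((1 : ℝ), (0 : V)))) v := by
    rw [resV_apply]
    simp
  rw [h7] at h5
  have h8 : (0 : (ℝ × V) [⋀^Fin (k + 2)]→L[ℝ] ℝ)
    (Matrix.vecCons (((1 : ℝ), (0 : V)) : ℝ × V) fun i => ((0 : ℝ), v i)) = 0 := rfl
  rw [h8] at h5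
  linarith

end cal

end Pool.Agent.Q235.MO
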