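import Pool.Agent.Q235.MO.Bil
import Pool.Agent.Q235.SZ.Push2
import Pool.Agent.Helper186.Hamiltonian

/-!
Project MO: Moser's theorem for a segment of cohomologous symplectic forms on a closed manifold.
-/

set_option autoImplicit false

open Set Filter Topology Bundle
open scoped Manifold ContDiff

noncomputable section

namespace Pool.Agent.Q235.MO

open Pool.Agent.Y501.SYP
open Pool.Agent.Helper186 (SmoothBilinAt contMDiffAt_coord contMDiffAt_of_pairing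
  eventually_nondegenerate exists_sharp exists_cutoff exists_evolution contMDiffAt_smul_along
  contMDiffAt_zero_along)

section

variable {V : Type} [NormedAddCommGroup V] [NormedSpace ℝ V]
  {X : Type} [TopologicalSpace X] [ChartedSpace V X]

/-- exact forms are closed -/
theorem closed_of_isD {k : ℕ} {α : Form V X k} {η : Form V X (k + 1)} (hα : IsSmooth α)
    (hd : IsD α η) : IsClosedForm η := by
  intro U φ hφ p hp
  have h1 : pb φ η =ᶠ[𝓝 p] extDeriv (pb φ α) := by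
    filter_upwards [hφ.1.mem_nhds hp] with q hq using (hd U φ hφ q hq).symm
  rw [Filter.EventuallyEq.extDeriv_eq h1]
  exact extDeriv_extDeriv_apply (r := ∞) ((hα U φ hφ).contDiffAt (hφ.1.mem_nhds hp))
    (by simp only [minSmoothness_of_isRCLikeNormedField]; exact ENat.LEInfty.out)

end

section

variable {V : Type} [NormedAddCommGroup V] [NormedSpace ℝ V] [FiniteDimensional ℝ V]
  {X : Type} [TopologicalSpace X] [ChartedSpace V X] [IsManifold 𝓘(ℝ, V) ∞ X]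

/-- **Moser's theorem** for a segment. -/
theorem moser [CompactSpace X] [T2Space X] {τ η : Form V X 2} {α : Form V X 1}
    (hτ : IsSmooth τ) (hτc : IsClosedForm τ) (hα : IsSmooth α) (hη : IsSmooth η) (hd : IsD α η)
    (hnd : ∀ t ∈ Icc (0 : ℝ) 1, ∀ (x : X) (v : TangentSpace 𝓘(ℝ, V) x),
      (∀ w, τ x ![v, w] + t * η x ![v, w] = 0) → v = 0) :
    ∃ R B : ℝ × X → X, SmFam (V := V) R ∧ SmFam (V := V) B ∧ (∀ x, R (0, x) = x) ∧
      (∀ s x, B (s, R (s, x)) = x) ∧ (∀ s x, R (s, B (s, x)) = x) ∧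
      pull (fun x => R (1, x)) (fun x => τ x + η x) = τ := by
  classical
  set Bf : (p : ℝ × X) → TangentSpace 𝓘(ℝ, V) p.2 →L[ℝ] TangentSpace 𝓘(ℝ, V) p.2 →L[ℝ] ℝ :=
    fun p => bil τ p.2 + p.1 • bil η p.2 with hBf
  have hBa : ∀ (p : ℝ × X) (u v : TangentSpace 𝓘(ℝ, V) p.2),
      Bf p u v = τ p.2 ![u, v] + p.1 * η p.2 ![u, v] := by
    intro p u v
    have h1 : Bf p u v = bil τ p.2 u v + p.1 * bil η p.2 u v := rfl
    rw [h1, bil_apply, bil_apply]
  have hBs : ∀ p₀ : ℝ × X, SmoothBilinAt (𝓘(ℝ, ℝ).prod 𝓘(ℝ, V)) (fun p : ℝ × X => p.2) Bf p₀ := by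
    intro p₀ u v hu hv
    have h1 : ∀ {σ : Form V X 2}, IsSmooth σ → ContMDiffAt (𝓘(ℝ, ℝ).prod 𝓘(ℝ, V)) 𝓘(ℝ, ℝ) ∞
        (fun p : ℝ × X => σ p.2 ![u p, v p]) p₀ := by
      intro σ hσ
      have h2 := form_sections (J := 𝓘(ℝ, ℝ).prod 𝓘(ℝ, V)) hσ (f := fun p : ℝ × X => p.2)
        (p₀ := p₀) contMDiffAt_snd (w := fun i p => (![u p, v p] : Fin 2 → _) i) (by
          intro i
          fin_cases i
          · exact hu
          · exact hv)
      exact h2
    have hs : ContMDiffAt (𝓘(ℝ, ℝ).prod 𝓘(ℝ, V)) 𝓘(ℝ, ℝ) ∞ (fun p : ℝ × X => p.1) p₀ :=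
      contMDiffAt_fst
    refine ((h1 hτ).add (hs.mul (h1 hη))).congr_of_eventuallyEq
      (Filter.Eventually.of_forall fun p => ?_)
    exact hBa p (u p) (v p)
  -- the domain of nondegeneracy
  set 𝒰 : Set (ℝ × X) := {p | ∀ u, (∀ v, Bf p u v = 0) → u = 0} with h𝒰
  have h𝒰o : IsOpen 𝒰 := by
    rw [isOpen_iff_mem_nhds]
    intro p hp
    exact eventually_nondegenerate contMDiffAt_snd (hBs p) hp
  have hmem : ∀ t ∈ Icc (0 : ℝ) 1, ∀ x : X, (t, x) ∈ 𝒰 := by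
    intro t ht x u hu
    refine hnd t ht x u fun w => ?_
    rw [← hu w, hBa]
  set a : (x : X) → TangentSpace 𝓘(ℝ, V) x →L[ℝ] ℝ := fun x =>
    show V →L[ℝ] ℝ from (ContinuousAlternatingMap.ofSubsingletonLIE (𝕜 := ℝ) (E := V) (F := ℝ)
      (0 : Fin 1)).symm (show V [⋀^Fin 1]→L[ℝ] ℝ from α x) with ha
  have haa : ∀ (x : X) (v : TangentSpace 𝓘(ℝ, V) x), a x v = α x (fun _ => v) := fun x v => rfl
  have hex : ∀ p : ℝ × X, ∃ u : TangentSpace 𝓘(ℝ, V) p.2, p ∈ 𝒰 → ∀ v, Bf p u v =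
      - a p.2 v := by
    intro p
    by_cases hp : p ∈ 𝒰
    · obtain ⟨u, hu⟩ := exists_sharp (Bf p) hp (-a p.2)
      exact ⟨u, fun _ v => hu v⟩
    · exact ⟨0, fun h => absurd h hp⟩
  choose Y hY using hex
  have hYs : ∀ p ∈ 𝒰, ContMDiffAt (𝓘(ℝ, ℝ).prod 𝓘(ℝ, V)) 𝓘(ℝ, V).tangent ∞
      (fun p : ℝ × X => (⟨p.2, Y p⟩ : TangentBundle 𝓘(ℝ, V) X)) p := by
    intro p₀ hp₀
    refine contMDiffAt_of_pairing (f := fun p : ℝ × X => p.2) contMDiffAt_snd
      (hBs p₀) hp₀ ?_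
    intro v hv
    have a0 : ContMDiffAt (𝓘(ℝ, ℝ).prod 𝓘(ℝ, V)) 𝓘(ℝ, ℝ) ∞
        (fun p : ℝ × X => α p.2 (fun _ => v p)) p₀ :=
      form_sections (J := 𝓘(ℝ, ℝ).prod 𝓘(ℝ, V)) hα (f := fun p : ℝ × X => p.2)
        (p₀ := p₀) contMDiffAt_snd (w := fun _ p => v p) (fun _ => hv)
    refine a0.neg.congr_of_eventuallyEq ?_
    filter_upwards [h𝒰o.mem_nhds hp₀] with p hp
    exact hY p hp (v p)
  -- cut off
  have hI : IsCompact (Icc (0:ℝ) 1 ×ˢ (univ : Set X)) := isCompact_Icc.prod isCompact_univ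
  obtain ⟨χ, K', hχ, hK', hK'U, hχ1, hχ0⟩ := exists_cutoff (𝓘(ℝ, ℝ).prod 𝓘(ℝ, V)) hI h𝒰o
    (fun p hp => hmem p.1 hp.1 p.2)
  have hYt : ContMDiff (𝓘(ℝ, ℝ).prod 𝓘(ℝ, V)) 𝓘(ℝ, V).tangent ∞
      (fun p : ℝ × X => (⟨p.2, χ p • Y p⟩ : TangentBundle 𝓘(ℝ, V) X)) := by
    intro p
    by_cases hp : p ∈ 𝒰
    · exact contMDiffAt_smul_along (hχ p) (hYs p hp)
    · have hp' : p ∈ K'ᶜ := fun h => hp (hK'U h)
      have h1 : ContMDiffAt (𝓘(ℝ, ℝ).prod 𝓘(ℝ, V)) 𝓘(ℝ, V).tangent ∞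
        (fun p : ℝ × X => (⟨p.2, 0⟩ : TangentBundle 𝓘(ℝ, V) X)) p :=
        contMDiffAt_zero_along contMDiffAt_snd
      refine h1.congr_of_eventuallyEq ?_
      filter_upwards [hK'.isClosed.isOpen_compl.mem_nhds hp'] with q hq
      rw [hχ0 q hq, zero_smul]
  have hYK : ∀ p : ℝ × X, p ∉ K' → χ p • Y p = 0 := by
    intro p hp
    rw [hχ0 p hp, zero_smul]
  obtain ⟨R, B, hR, hB, hR0, hBR, hRB, hRd, -⟩ :=
    exists_evolution (Y := fun s x => χ (s, x) • Y (s, x)) hYt hK' hYK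
  have hvel : ∀ s ∈ Icc (0 : ℝ) 1, ∀ x, vel (V := V) R s x = Y (s, R (s, x)) := by
    intro s hs x
    have h1 : vel (V := V) R s x = χ (s, R (s, x)) • Y (s, R (s, x)) := by
      unfold vel
      rw [(hRd s x).mfderiv]
      exact one_smul ℝ _
    have h2 : χ (s, R (s, x)) = 1 :=
      hχ1.self_of_nhdsSet (s, R (s, x)) ⟨hs, mem_univ _⟩
    rw [h1, h2, one_smul]
  refine ⟨R, B, hR, hB, hR0, hBR, hRB, ?_⟩
  have hR' : SmFam (V := V) R := hR
  have hRs : ∀ s, ContMDiff 𝓘(ℝ, V) 𝓘(ℝ, V) ∞ (fun x => R (s, x)) := slice_smooth hR'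
  have hηc : IsClosedForm η := closed_of_isD hα hd
  have hbet : ∀ s ∈ Icc (0 : ℝ) 1, ∀ (φ : V → X) (p : V),
      pb φ (bet R τ s) p + s • pb φ (bet R η s) p =
        (-1 : ℝ) • pb φ (pull (fun x => R (s, x)) α) p := by
    intro s hs φ p
    ext v
    have hv : ∀ (u w : TangentSpace 𝓘(ℝ, V) (R (s, φ p))),
        (Matrix.vecCons u (fun _ : Fin 1 => w)) = ![u, w] := by
      intro u w
      funext i
      fin_cases i <;> rfl
    have h1 : ∀ σ : Form V X 2, pb φ (bet R σ s) p v = σ (R (s, φ p))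
        ![Y (s, R (s, φ p)), mfderiv 𝓘(ℝ, V) 𝓘(ℝ, V) (fun x => R (s, x)) (φ p)
          (mfderiv 𝓘(ℝ, V) 𝓘(ℝ, V) φ p (v 0))] := by
      intro σ
      rw [← hv, ← hvel s hs]
      show σ (R (s, φ p)) (Matrix.vecCons (vel (V := V) R s (φ p)) fun i : Fin 1 =>
        mfderiv 𝓘(ℝ, V) 𝓘(ℝ, V) (fun x => R (s, x)) (φ p)
          (mfderiv 𝓘(ℝ, V) 𝓘(ℝ, V) φ p (v i))) = _
      congr 2
      funext i
      fin_cases i
      rfl
    have h2 := hY (s, R (s, φ p)) (hmem s hs _)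
      (mfderiv 𝓘(ℝ, V) 𝓘(ℝ, V) (fun x => R (s, x)) (φ p)
        (mfderiv 𝓘(ℝ, V) 𝓘(ℝ, V) φ p (v 0)))
    rw [hBa] at h2
    have h3 : pb φ (pull (fun x => R (s, x)) α) p v = a (R (s, φ p))
        (mfderiv 𝓘(ℝ, V) 𝓘(ℝ, V) (fun x => R (s, x)) (φ p)
          (mfderiv 𝓘(ℝ, V) 𝓘(ℝ, V) φ p (v 0))) := by
      rw [haa]
      show α (R (s, φ p)) (fun i : Fin 1 =>
        mfderiv 𝓘(ℝ, V) 𝓘(ℝ, V) (fun x => R (s, x)) (φ p)
          (mfderiv 𝓘(ℝ, V) 𝓘(ℝ, V) φ p (v i))) = _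
      congr 1
      funext i
      fin_cases i
      rfl
    show pb φ (bet R τ s) p v + s * pb φ (bet R η s) p v =
      (-1 : ℝ) * pb φ (pull (fun x => R (s, x)) α) p v
    rw [h1, h1, h3]
    linarith
  have hder : ∀ s ∈ Icc (0 : ℝ) 1, ∀ (U : Set V) (φ : V → X), SmoothParam U φ → ∀ p ∈ U,
      HasDerivAt (fun t => pb φ (pull (fun x => R (t, x)) τ) p +
        t • pb φ (pull (fun x => R (t, x)) η) p) 0 s := by
    intro s hs U φ hφ p hp
    have d1 := hasDerivAt_pull hR' hφ hτ hτc s hp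
    have d2 := hasDerivAt_pull hR' hφ hη hηc s hp
    have d3 := d1.add ((hasDerivAt_id s).smul d2)
    refine d3.congr_deriv ?_
    have hsm : ∀ {σ : Form V X 2}, IsSmooth σ → DifferentiableAt ℝ (pb φ (bet R σ s)) p :=
      fun hσ => ((smooth_bet hR' hσ s U φ hφ).contDiffAt (hφ.1.mem_nhds hp)).differentiableAt
        (by simp)
    have e1 : extDeriv (fun q => pb φ (bet R τ s) q + s • pb φ (bet R η s) q) p =
        extDeriv (pb φ (bet R τ s)) p + s • extDeriv (pb φ (bet R η s)) p := by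
      have e2 := extDeriv_fun_add (hsm hτ) ((hsm hη).const_smul s)
      refine e2.trans ?_
      congr 1
      exact extDeriv_smul s _
    have e3 : extDeriv (fun q => pb φ (bet R τ s) q + s • pb φ (bet R η s) q) p =
        (-1 : ℝ) • pb φ (pull (fun x => R (s, x)) η) p := by
      have e4 : (fun q => pb φ (bet R τ s) q + s • pb φ (bet R η s) q) =
          fun q => (-1 : ℝ) • pb φ (pull (fun x => R (s, x)) α) q := by
        funext q
        exact hbet s hs φ q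
      rw [e4]
      refine (extDeriv_smul (-1 : ℝ) (pb φ (pull (fun x => R (s, x)) α)) (x := p)).trans ?_
      congr 1
      exact isD_pull hα hd (hRs s) U φ hφ p hp
    have e5 : extDeriv (pb φ (bet R τ s)) p + s • extDeriv (pb φ (bet R η s)) p =
        (-1 : ℝ) • pb φ (pull (fun x => R (s, x)) η) p := e1.symm.trans e3
    have e6 : extDeriv (pb φ (bet R τ s)) p + ((id s : ℝ) • extDeriv (pb φ (bet R η s)) p +
        (1 : ℝ) • pb φ (pull (fun x => R (s, x)) η) p) = 0 := by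
      rw [← add_assoc]
      have e7 : (id s : ℝ) = s := rfl
      rw [e7, e5, ← add_smul]
      norm_num
    exact e6
  funext x
  have hpar : SmoothParam (chartAt V x).target (chartAt V x).symm :=
    ⟨(chartAt V x).open_target, contMDiffOn_chart_symm⟩
  have hp : chartAt V x x ∈ (chartAt V x).target := mem_chart_target V x
  have hconst := constant_of_has_deriv_right_zero (a := (0 : ℝ)) (b := 1)
    (f := fun t => pb (chartAt V x).symm (pull (fun x => R (t, x)) τ) (chartAt V x x) +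
        t • pb (chartAt V x).symm (pull (fun x => R (t, x)) η) (chartAt V x x))
    (fun s hs => (hder s hs _ _ hpar _ hp).continuousAt.continuousWithinAt)
    (fun s hs => (hder s ⟨hs.1, hs.2.le⟩ _ _ hpar _ hp).hasDerivWithinAt) 1
    ⟨zero_le_one, le_rfl⟩
  have h0 : pull (fun x => R ((0 : ℝ), x)) τ = τ := by
    have : (fun x => R ((0 : ℝ), x)) = id := funext hR0
    rw [this]
    exact pull_id τ
  have hfin : pb (chartAt V x).symm (pull (fun x => R ((1 : ℝ), x)) (fun x => τ x + η x))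
      (chartAt V x x) = pb (chartAt V x).symm τ (chartAt V x x) := by
    have e1 : pb (chartAt V x).symm (pull (fun x => R ((1 : ℝ), x)) (fun x => τ x + η x))
        (chartAt V x x) = pb (chartAt V x).symm (pull (fun x => R ((1 : ℝ), x)) τ)
          (chartAt V x x) + (1 : ℝ) • pb (chartAt V x).symm (pull (fun x => R ((1 : ℝ), x)) η)
            (chartAt V x x) := by
      rw [one_smul]
      rfl
    rw [e1]
    refine hconst.trans ?_
    rw [zero_smul, add_zero, h0]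
  have hfin2 := Pool.Agent.Q235.SZ.pb_inj _ _ x hp hfin
  rwa [(chartAt V x).left_inv (mem_chart_source V x)] at hfin2

end

end Pool.Agent.Q235.MO
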