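import Pool.Agent.Y501.SY.Pub
import Pool.Agent.Y604.SY.Pull

/-!
Project MO: pull-backs of forms by maps from normed spaces; smoothness and exterior derivatives.
-/

set_option autoImplicit false

open Set Filter Topology
open scoped Manifold ContDiff

noncomputable section

namespace Pool.Agent.Q235.MO

open Pool.Agent.Y501.SYP

section

variable {V : Type} [NormedAddCommGroup V] [NormedSpace ℝ V]
  {X : Type} [TopologicalSpace X] [ChartedSpace V X]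
  {P : Type} [NormedAddCommGroup P] [NormedSpace ℝ P]

/-- the pull-back of a form to a normed space -/
def PB {k : ℕ} (Φ : P → X) (σ : Form V X k) (q : P) : P [⋀^Fin k]→L[ℝ] ℝ :=
  (σ (Φ q)).compContinuousLinearMap (mfderiv 𝓘(ℝ, P) 𝓘(ℝ, V) Φ q)

theorem PB_eq_pb {k : ℕ} (Φ : V → X) (σ : Form V X k) (q : V) : PB Φ σ q = pb Φ σ q := rfl

theorem PB_congr {k : ℕ} (σ : Form V X k) {F H : P → X} {p : P} (h : F =ᶠ[𝓝 p] H) :
    PB F σ p = PB H σ p := by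
  have hp : F p = H p := h.eq_of_nhds
  have hd : (mfderiv 𝓘(ℝ, P) 𝓘(ℝ, V) F p : P →L[ℝ] V) = mfderiv 𝓘(ℝ, P) 𝓘(ℝ, V) H p :=
    h.mfderiv_eq
  ext v
  show (σ (F p) : V [⋀^Fin k]→L[ℝ] ℝ)
      (fun i => (mfderiv 𝓘(ℝ, P) 𝓘(ℝ, V) F p : P →L[ℝ] V) (v i)) =
    (σ (H p) : V [⋀^Fin k]→L[ℝ] ℝ)
      (fun i => (mfderiv 𝓘(ℝ, P) 𝓘(ℝ, V) H p : P →L[ℝ] V) (v i))
  rw [hd, hp]

/-- composition with a map of normed spaces -/
theorem PB_comp {Q : Type} [NormedAddCommGroup Q] [NormedSpace ℝ Q] {k : ℕ} (σ : Form V X k)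
    {F : P → X} {ψ : Q → P} {q : Q} (hF : MDifferentiableAt 𝓘(ℝ, P) 𝓘(ℝ, V) F (ψ q))
    (hψ : DifferentiableAt ℝ ψ q) :
    PB (F ∘ ψ) σ q = (PB F σ (ψ q)).compContinuousLinearMap (fderiv ℝ ψ q) := by
  unfold PB
  rw [mfderiv_comp q hF hψ.mdifferentiableAt, mfderiv_eq_fderiv]
  rfl

variable [IsManifold 𝓘(ℝ, V) ∞ X]

theorem PB_loc {Φ : P → X} {D : Set P} (hD : IsOpen D)
    (hΦ : ContMDiffOn 𝓘(ℝ, P) 𝓘(ℝ, V) ∞ Φ D) {q : P} (hq : q ∈ D) :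
    ∃ Ψ : P → V, ContDiffAt ℝ ∞ Ψ q ∧ Ψ q ∈ (chartAt V (Φ q)).target ∧
      ∀ (k : ℕ) (σ : Form V X k), ∀ᶠ q' in 𝓝 q, PB Φ σ q' =
        (pb (chartAt V (Φ q)).symm σ (Ψ q')).compContinuousLinearMap (fderiv ℝ Ψ q') := by
  obtain ⟨c, hc⟩ : ∃ c, c = chartAt V (Φ q) := ⟨_, rfl⟩
  rw [← hc]
  have hU' : IsOpen (D ∩ Φ ⁻¹' c.source) :=
    hΦ.continuousOn.isOpen_inter_preimage hD c.open_source
  have hq' : q ∈ D ∩ Φ ⁻¹' c.source := by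
    refine ⟨hq, ?_⟩
    rw [hc]
    exact mem_chart_source V (Φ q)
  have hcs : ContMDiffOn 𝓘(ℝ, V) 𝓘(ℝ, V) ∞ c c.source := by
    rw [hc]
    exact contMDiffOn_chart
  have hct : ContMDiffOn 𝓘(ℝ, V) 𝓘(ℝ, V) ∞ c.symm c.target := by
    rw [hc]
    exact contMDiffOn_chart_symm
  have hψm : ContMDiffOn 𝓘(ℝ, P) 𝓘(ℝ, V) ∞ (c ∘ Φ) (D ∩ Φ ⁻¹' c.source) :=
    hcs.comp (hΦ.mono inter_subset_left) fun p hp => hp.2
  have hψ : ContDiffOn ℝ ∞ (c ∘ Φ) (D ∩ Φ ⁻¹' c.source) := contMDiffOn_iff_contDiffOn.1 hψm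
  have hmaps : ∀ p ∈ D ∩ Φ ⁻¹' c.source, (c ∘ Φ) p ∈ c.target := fun p hp => c.map_source hp.2
  refine ⟨c ∘ Φ, hψ.contDiffAt (hU'.mem_nhds hq'), hmaps _ hq', fun k σ => ?_⟩
  filter_upwards [hU'.mem_nhds hq'] with p hp
  have hψp : DifferentiableAt ℝ (c ∘ Φ) p :=
    (hψ.contDiffAt (hU'.mem_nhds hp)).differentiableAt (by simp)
  have hcp : MDifferentiableAt 𝓘(ℝ, V) 𝓘(ℝ, V) c.symm ((c ∘ Φ) p) :=
    ((hct _ (hmaps p hp)).contMDiffAt (c.open_target.mem_nhds (hmaps p hp))).mdifferentiableAt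
      (by simp)
  have h2 : Φ =ᶠ[𝓝 p] (c.symm ∘ (c ∘ Φ)) := by
    filter_upwards [hU'.mem_nhds hp] with r hr
    exact (c.left_inv hr.2).symm
  rw [PB_congr σ h2, PB_comp σ hcp hψp]
  rfl

theorem PB_smooth {k : ℕ} {Φ : P → X} {D : Set P} (hD : IsOpen D)
    (hΦ : ContMDiffOn 𝓘(ℝ, P) 𝓘(ℝ, V) ∞ Φ D) {σ : Form V X k} (hσ : IsSmooth σ) :
    ContDiffOn ℝ ∞ (PB Φ σ) D := by
  intro q hq
  obtain ⟨Ψ, h1, h2, h3⟩ := PB_loc hD hΦ hq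
  refine ContDiffAt.contDiffWithinAt ?_
  have h4 : ContDiffAt ℝ ∞ (pb (chartAt V (Φ q)).symm σ) (Ψ q) :=
    (hσ _ _ ⟨(chartAt V (Φ q)).open_target, contMDiffOn_chart_symm⟩).contDiffAt
      ((chartAt V (Φ q)).open_target.mem_nhds h2)
  have h5 : ContDiffAt ℝ ∞ (fun p => (pb (chartAt V (Φ q)).symm σ (Ψ p), fderiv ℝ Ψ p)) q :=
    (h4.comp q h1).prodMk (h1.fderiv_right (by simp))
  exact (Pool.Agent.Y604.SY.contDiff_pull.contDiffAt.comp q h5).congr_of_eventuallyEq (h3 k σ)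

theorem ext_loc {k : ℕ} {w : V → V [⋀^Fin k]→L[ℝ] ℝ} {Ψ : P → V} {q : P}
    (hw : ContDiffAt ℝ ∞ w (Ψ q)) (hΨ : ContDiffAt ℝ ∞ Ψ q) {G : P → P [⋀^Fin k]→L[ℝ] ℝ}
    (h : ∀ᶠ q' in 𝓝 q, G q' = (w (Ψ q')).compContinuousLinearMap (fderiv ℝ Ψ q')) :
    extDeriv G q = (extDeriv w (Ψ q)).compContinuousLinearMap (fderiv ℝ Ψ q) := by
  rw [Filter.EventuallyEq.extDeriv_eq h]
  exact extDeriv_pullback (r := ∞) (hw.differentiableAt (by simp)) hΨ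
    (by simp only [minSmoothness_of_isRCLikeNormedField]; exact ENat.LEInfty.out)

/-- exterior derivatives commute with pull-backs -/
theorem PB_ext {k : ℕ} {Φ : P → X} {D : Set P} (hD : IsOpen D)
    (hΦ : ContMDiffOn 𝓘(ℝ, P) 𝓘(ℝ, V) ∞ Φ D) {q : P} (hq : q ∈ D) {α : Form V X k}
    (hα : IsSmooth α) {η : Form V X (k + 1)} (hd : IsD α η) :
    extDeriv (PB Φ α) q = PB Φ η q := by
  obtain ⟨Ψ, h1, h2, h3⟩ := PB_loc hD hΦ hq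
  have hpar : SmoothParam (chartAt V (Φ q)).target (chartAt V (Φ q)).symm :=
    ⟨(chartAt V (Φ q)).open_target, contMDiffOn_chart_symm⟩
  have h4 : ContDiffAt ℝ ∞ (pb (chartAt V (Φ q)).symm α) (Ψ q) :=
    (hα _ _ hpar).contDiffAt ((chartAt V (Φ q)).open_target.mem_nhds h2)
  rw [ext_loc h4 h1 (h3 k α), hd _ _ hpar _ h2]
  exact (h3 (k + 1) η).self_of_nhds.symm

theorem PB_closed {k : ℕ} {Φ : P → X} {D : Set P} (hD : IsOpen D)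
    (hΦ : ContMDiffOn 𝓘(ℝ, P) 𝓘(ℝ, V) ∞ Φ D) {q : P} (hq : q ∈ D) {σ : Form V X k}
    (hσ : IsSmooth σ) (hc : IsClosedForm σ) : extDeriv (PB Φ σ) q = 0 := by
  obtain ⟨Ψ, h1, h2, h3⟩ := PB_loc hD hΦ hq
  have hpar : SmoothParam (chartAt V (Φ q)).target (chartAt V (Φ q)).symm :=
    ⟨(chartAt V (Φ q)).open_target, contMDiffOn_chart_symm⟩
  have h4 : ContDiffAt ℝ ∞ (pb (chartAt V (Φ q)).symm σ) (Ψ q) :=
    (hσ _ _ hpar).contDiffAt ((chartAt V (Φ q)).open_target.mem_nhds h2)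
  rw [ext_loc h4 h1 (h3 k σ), hc _ _ hpar _ h2]
  ext v
  rfl

/-! ### pull-backs by maps of the manifold -/

/-- the pull-back of a form by a map -/
def pull {k : ℕ} (f : X → X) (σ : Form V X k) : Form V X k := fun x =>
  (σ (f x)).compContinuousLinearMap (mfderiv 𝓘(ℝ, V) 𝓘(ℝ, V) f x)

omit [IsManifold 𝓘(ℝ, V) ∞ X] in
theorem PB_pull {k : ℕ} (σ : Form V X k) {f : X → X} {Φ : P → X} {q : P}
    (hf : MDifferentiableAt 𝓘(ℝ, V) 𝓘(ℝ, V) f (Φ q))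
    (hΦ : MDifferentiableAt 𝓘(ℝ, P) 𝓘(ℝ, V) Φ q) :
    PB Φ (pull f σ) q = PB (f ∘ Φ) σ q := by
  unfold PB pull
  rw [mfderiv_comp q hf hΦ]
  rfl

theorem pb_pull {k : ℕ} (σ : Form V X k) {f : X → X} (hf : ContMDiff 𝓘(ℝ, V) 𝓘(ℝ, V) ∞ f)
    {U : Set V} {φ : V → X} (hφ : SmoothParam U φ) {p : V} (hp : p ∈ U) :
    pb φ (pull f σ) p = PB (f ∘ φ) σ p :=
  PB_pull σ ((hf (φ p)).mdifferentiableAt (by simp))
    ((hφ.2.contMDiffAt (hφ.1.mem_nhds hp)).mdifferentiableAt (by simp))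

theorem smooth_pull {k : ℕ} {σ : Form V X k} (hσ : IsSmooth σ) {f : X → X}
    (hf : ContMDiff 𝓘(ℝ, V) 𝓘(ℝ, V) ∞ f) : IsSmooth (pull f σ) := fun U φ hφ =>
  (PB_smooth hφ.1 (hf.comp_contMDiffOn hφ.2) hσ).congr fun p hp => pb_pull σ hf hφ hp

theorem isD_pull {k : ℕ} {α : Form V X k} {η : Form V X (k + 1)} (hα : IsSmooth α)
    (hd : IsD α η) {f : X → X} (hf : ContMDiff 𝓘(ℝ, V) 𝓘(ℝ, V) ∞ f) :
    IsD (pull f α) (pull f η) := by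
  intro U φ hφ p hp
  have h1 : pb φ (pull f α) =ᶠ[𝓝 p] PB (f ∘ φ) α := by
    filter_upwards [hφ.1.mem_nhds hp] with q hq using pb_pull α hf hφ hq
  rw [Filter.EventuallyEq.extDeriv_eq h1, pb_pull η hf hφ hp]
  exact PB_ext hφ.1 (hf.comp_contMDiffOn hφ.2) hp hα hd

theorem closed_pull {k : ℕ} {σ : Form V X k} (hσ : IsSmooth σ) (hc : IsClosedForm σ)
    {f : X → X} (hf : ContMDiff 𝓘(ℝ, V) 𝓘(ℝ, V) ∞ f) : IsClosedForm (pull f σ) := by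
  intro U φ hφ p hp
  have h1 : pb φ (pull f σ) =ᶠ[𝓝 p] PB (f ∘ φ) σ := by
    filter_upwards [hφ.1.mem_nhds hp] with q hq using pb_pull σ hf hφ hq
  rw [Filter.EventuallyEq.extDeriv_eq h1]
  exact PB_closed hφ.1 (hf.comp_contMDiffOn hφ.2) hp hσ hc

/-- the pull-back of a pull-back -/
theorem pull_pull {k : ℕ} (σ : Form V X k) {f g : X → X}
    (hf : ContMDiff 𝓘(ℝ, V) 𝓘(ℝ, V) ∞ f) (hg : ContMDiff 𝓘(ℝ, V) 𝓘(ℝ, V) ∞ g) :
    pull g (pull f σ) = pull (f ∘ g) σ := by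
  funext x
  unfold pull
  rw [mfderiv_comp x ((hf (g x)).mdifferentiableAt (by simp))
    ((hg x).mdifferentiableAt (by simp))]
  rfl

theorem pull_id {k : ℕ} (σ : Form V X k) : pull (id : X → X) σ = σ := by
  funext x
  unfold pull
  rw [mfderiv_id]
  ext v
  rfl

end

end Pool.Agent.Q235.MO
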