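import Pool.Agent.Q235.MO.Moser
import Pool.Agent.Q235.MO.Cont
import Pool.Agent.Q235.SP.FamN

/-!
Project MO: paths of cohomologous symplectic forms come from isotopies.
-/

set_option autoImplicit false

open Set Filter Topology
open scoped Manifold ContDiff

noncomputable section

namespace Pool.Agent.Q235.MO

open Pool.Agent.Y501.SYP
open Pool.Agent.Q235.SZ (SForm addS addS_continuous InClass Nondeg)
open Pool.Agent.Q235.SN Pool.Agent.Q235.SP

section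

variable {V : Type} [NormedAddCommGroup V] [NormedSpace ℝ V]
  {X : Type} [TopologicalSpace X] [ChartedSpace V X]

variable (V) in
/-- smooth isotopies of diffeomorphisms from `g` to `f` -/
def Isotopic (g f : X → X) : Prop :=
  ∃ K L : ℝ × X → X, SmFam (V := V) K ∧ SmFam (V := V) L ∧ (∀ s x, L (s, K (s, x)) = x) ∧
    (∀ s x, K (s, L (s, x)) = x) ∧ (∀ x, K (0, x) = g x) ∧ ∀ x, K (1, x) = f x

theorem isotopic_refl : Isotopic V (id : X → X) id :=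
  ⟨fun q => q.2, fun q => q.2, contMDiff_snd, contMDiff_snd, fun _ _ => rfl, fun _ _ => rfl,
    fun _ => rfl, fun _ => rfl⟩

theorem Isotopic.comp {g f g' f' : X → X} (h : Isotopic V g f) (h' : Isotopic V g' f') :
    Isotopic V (g ∘ g') (f ∘ f') := by
  obtain ⟨K, L, hK, hL, h1, h2, h3, h4⟩ := h
  obtain ⟨K', L', hK', hL', h1', h2', h3', h4'⟩ := h'
  refine ⟨fun q => K (q.1, K' q), fun q => L' (q.1, L q), ?_, ?_, fun s x => ?_, fun s x => ?_,
    fun x => ?_, fun x => ?_⟩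
  · exact ContMDiff.comp (I' := 𝓘(ℝ, ℝ).prod 𝓘(ℝ, V)) hK (contMDiff_fst.prodMk hK')
  · exact ContMDiff.comp (I' := 𝓘(ℝ, ℝ).prod 𝓘(ℝ, V)) hL' (contMDiff_fst.prodMk hL)
  · show L' (s, L (s, K (s, K' (s, x)))) = x
    rw [h1, h1']
  · show K (s, K' (s, L' (s, L (s, x)))) = x
    rw [h2', h2]
  · show K (0, K' (0, x)) = _
    rw [h3', h3]
    rfl
  · show K (1, K' (1, x)) = _
    rw [h4', h4]
    rfl

/-- the reversed isotopy -/
theorem Isotopic.symm {g f : X → X} (h : Isotopic V g f) : Isotopic V f g := by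
  obtain ⟨K, L, hK, hL, h1, h2, h3, h4⟩ := h
  have hr : ContMDiff (𝓘(ℝ, ℝ).prod 𝓘(ℝ, V)) (𝓘(ℝ, ℝ).prod 𝓘(ℝ, V)) ∞
      (fun q : ℝ × X => ((1 : ℝ) - q.1, q.2)) := by
    refine ContMDiff.prodMk ?_ contMDiff_snd
    have h5 : ContMDiff 𝓘(ℝ, ℝ) 𝓘(ℝ, ℝ) ∞ (fun s : ℝ => 1 - s) :=
      (contDiff_const.sub contDiff_id).contMDiff
    exact h5.comp contMDiff_fst
  refine ⟨fun q => K (1 - q.1, q.2), fun q => L (1 - q.1, q.2), ?_, ?_, fun s x => h1 _ x,
    fun s x => h2 _ x, fun x => ?_, fun x => ?_⟩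
  · exact ContMDiff.comp (I' := 𝓘(ℝ, ℝ).prod 𝓘(ℝ, V)) hK hr
  · exact ContMDiff.comp (I' := 𝓘(ℝ, ℝ).prod 𝓘(ℝ, V)) hL hr
  · show K (1 - 0, x) = f x
    rw [sub_zero, h4]
  · show K (1 - 1, x) = g x
    rw [sub_self, h3]

variable (V) in
/-- diffeomorphisms -/
def IsDiffeo (f : X → X) : Prop :=
  ContMDiff 𝓘(ℝ, V) 𝓘(ℝ, V) ∞ f ∧
    ∃ g : X → X, ContMDiff 𝓘(ℝ, V) 𝓘(ℝ, V) ∞ g ∧ (∀ x, g (f x) = x) ∧ ∀ x, f (g x) = x

theorem IsDiffeo.isotopic {f : X → X} (h : IsDiffeo V f) : Isotopic V f f := by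
  obtain ⟨hf, g, hg, h1, h2⟩ := h
  exact ⟨fun q => f q.2, fun q => g q.2, hf.comp contMDiff_snd, hg.comp contMDiff_snd,
    fun _ x => h1 x, fun _ x => h2 x, fun _ => rfl, fun _ => rfl⟩

theorem Isotopic.smooth_right {g f : X → X} (h : Isotopic V g f) :
    ContMDiff 𝓘(ℝ, V) 𝓘(ℝ, V) ∞ f := by
  obtain ⟨K, L, hK, hL, h1, h2, h3, h4⟩ := h
  have h5 : (fun x => K (1, x)) = f := funext h4
  rw [← h5]
  exact slice_smooth hK 1

end

section

variable {V : Type} [NormedAddCommGroup V] [NormedSpace ℝ V] [FiniteDimensional ℝ V]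
  {X : Type} [TopologicalSpace X] [ChartedSpace V X] [IsManifold 𝓘(ℝ, V) ∞ X]

/-- one form is the pull-back of the other by a diffeomorphism isotopic to the identity -/
def Rel (σ σ' : Form V X 2) : Prop := ∃ f : X → X, Isotopic V id f ∧ pull f σ' = σ

omit [FiniteDimensional ℝ V] in
theorem rel_trans {σ σ' σ'' : Form V X 2} (h : Rel σ σ') (h' : Rel σ' σ'') : Rel σ σ'' := by
  obtain ⟨f, hf, h1⟩ := h
  obtain ⟨g, hg, h2⟩ := h'
  refine ⟨g ∘ f, ?_, ?_⟩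
  · have h3 := hg.comp hf
    exact h3
  · rw [← pull_pull σ'' hg.smooth_right hf.smooth_right, h2, h1]

omit [FiniteDimensional ℝ V] in
theorem addS_self (σ : SForm V X) (s : ℝ) : (addS σ s (addS σ (-1) σ)).1 = σ.1 := by
  funext x
  ext v
  change σ.1 x v + s * (σ.1 x v + (-1 : ℝ) * σ.1 x v) = σ.1 x v
  ring

omit [FiniteDimensional ℝ V] in
theorem addS_rev (σ σ' : SForm V X) (s : ℝ) : (addS σ' s (addS σ (-1) σ')).1 =
    (addS σ (1 - s) (addS σ' (-1) σ)).1 := by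
  funext x
  ext v
  change σ'.1 x v + s * (σ.1 x v + (-1 : ℝ) * σ'.1 x v) =
    σ.1 x v + (1 - s) * (σ'.1 x v + (-1 : ℝ) * σ.1 x v)
  ring

/-- a segment of symplectic forms -/
theorem rel_seg [CompactSpace X] [T2Space X] {τ : Form V X 2} {σ σ' : SForm V X}
    (h : InClass τ σ.1) (h' : InClass τ σ'.1)
    (hnd : ∀ t ∈ Icc (0 : ℝ) 1, Nondeg (addS σ t (addS σ' (-1) σ)).1) : Rel σ.1 σ'.1 := by
  obtain ⟨hc, α, hα, hαd⟩ := h
  obtain ⟨hc', β, hβ, hβd⟩ := h'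
  have hγ : IsSmooth (fun x => β x + (-1 : ℝ) • α x) := fun U φ hφ =>
    (hβ U φ hφ).add ((hα U φ hφ).const_smul (-1 : ℝ))
  have hγd : IsD (fun x => β x + (-1 : ℝ) • α x) (addS σ' (-1) σ).1 := by
    intro U φ hφ p hp
    have h3 := Pool.Agent.Q235.SZ.ext_lin (-1 : ℝ) (Pool.Agent.Q235.SZ.diffAt hβ hφ hp)
      (Pool.Agent.Q235.SZ.diffAt hα hφ hp)
    rw [hαd U φ hφ p hp, hβd U φ hφ p hp] at h3
    refine h3.trans ?_
    ext m
    change (σ'.1 (φ p) - τ (φ p)) _ + (-1 : ℝ) * (σ.1 (φ p) - τ (φ p)) _ =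
      (σ'.1 (φ p)) _ + (-1 : ℝ) * (σ.1 (φ p)) _
    change (σ'.1 (φ p)) _ - (τ (φ p)) _ + (-1 : ℝ) * ((σ.1 (φ p)) _ - (τ (φ p)) _) =
      (σ'.1 (φ p)) _ + (-1 : ℝ) * (σ.1 (φ p)) _
    ring
  obtain ⟨R, B, hR, hB, hR0, hBR, hRB, hpull⟩ := moser σ.2 hc hγ (addS σ' (-1) σ).2 hγd
    (fun t ht x v hv => hnd t ht x v fun w => hv w)
  refine ⟨fun x => R (1, x), ⟨R, B, hR, hB, hBR, hRB, hR0, fun _ => rfl⟩, ?_⟩
  have h1 : (fun x => σ.1 x + (addS σ' (-1) σ).1 x) = σ'.1 := by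
    funext x
    ext v
    change σ.1 x v + (σ'.1 x v + (-1 : ℝ) * σ.1 x v) = σ'.1 x v
    ring
  rw [h1] at hpull
  exact hpull

end

section

variable {d m : ℕ} {X : Type} [TopologicalSpace X] [ChartedSpace (ES d) X]

theorem fd_ES : FiniteDimensional ℝ (ES d) :=
  (EuclideanSpace.basisFun (Fin d) ℝ).toBasis.finiteDimensional_of_finite

theorem nondeg_of_rT (e : Module.Basis (Fin (m + 1) × Bool) ℝ (ES d)) {τ σ : Form (ES d) X 2}
    (h : ∀ x, 0 < rT e τ σ x) : Nondeg σ := by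
  intro x v hv
  by_contra hv0
  have h7 := top_degenerate (V := ES d) e (σ x) (v := v) hv0 hv
  have h8 := h x
  have h9 : rT e τ σ x =
    top (n := m + 1) (V := ES d) (σ x) e / top (n := m + 1) (V := ES d) (τ x) e := rfl
  rw [h9, h7, zero_div] at h8
  exact lt_irrefl _ h8

variable [IsManifold 𝓘(ℝ, ES d) ∞ X]


/-- near -/
theorem near [CompactSpace X] (e : Module.Basis (Fin (m + 1) × Bool) ℝ (ES d))
    {τ : SForm (ES d) X} (hτ : ∀ x, top (n := m + 1) (V := ES d) (τ.1 x) e ≠ 0)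
    {c : unitInterval → SForm (ES d) X} (hc : Continuous c)
    (hpos : ∀ t x, 0 < rT e τ.1 (c t).1 x) (t₀ : unitInterval) :
    ∀ᶠ t in 𝓝 t₀, ∀ s ∈ Icc (0 : ℝ) 1, ∀ x,
      0 < rT e τ.1 (addS (c t₀) s (addS (c t) (-1) (c t₀))).1 x := by
  have hΦ : Continuous fun q : unitInterval × ℝ => addS (c t₀) q.2 (addS (c q.1) (-1) (c t₀)) :=
    addS_continuous continuous_const continuous_snd
      (addS_continuous (hc.comp continuous_fst) continuous_const continuous_const)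
  have hr := rT_cont e hτ hΦ
  have h1 : Continuous fun q : unitInterval × (ℝ × X) =>
      rT e τ.1 (addS (c t₀) q.2.1 (addS (c q.1) (-1) (c t₀))).1 q.2.2 :=
    hr.comp (f := fun q : unitInterval × (ℝ × X) => ((q.1, q.2.1), q.2.2))
      ((continuous_fst.prodMk (continuous_fst.comp continuous_snd)).prodMk
        (continuous_snd.comp continuous_snd))
  have hO : IsOpen {q : unitInterval × (ℝ × X) |
      0 < rT e τ.1 (addS (c t₀) q.2.1 (addS (c q.1) (-1) (c t₀))).1 q.2.2} :=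
    isOpen_lt continuous_const h1
  have hsub : ({t₀} : Set unitInterval) ×ˢ (Icc (0 : ℝ) 1 ×ˢ (univ : Set X)) ⊆
      {q : unitInterval × (ℝ × X) |
      0 < rT e τ.1 (addS (c t₀) q.2.1 (addS (c q.1) (-1) (c t₀))).1 q.2.2} := by
    rintro ⟨t, ⟨s, x⟩⟩ ⟨ht, -⟩
    rw [mem_singleton_iff] at ht
    have h2 : (addS (c t₀) s (addS (c t) (-1) (c t₀))).1 = (c t₀).1 := by
      rw [show t = t₀ from ht]
      exact addS_self _ _
    have h3 : rT e τ.1 (addS (c t₀) s (addS (c t) (-1) (c t₀))).1 x =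
        rT e τ.1 (c t₀).1 x := congrArg (fun σ => rT e τ.1 σ x) h2
    exact lt_of_lt_of_eq (hpos t₀ x) h3.symm
  obtain ⟨u, v, hu, -, h1, h2, h3⟩ := generalized_tube_lemma isCompact_singleton
    (isCompact_Icc.prod isCompact_univ) hO hsub
  filter_upwards [hu.mem_nhds (h1 rfl)] with t₁ ht₁ s hs x
  have h4 : (t₁, (s, x)) ∈ u ×ˢ v := Set.mk_mem_prod ht₁ (h2 (Set.mk_mem_prod hs (mem_univ x)))
  have h5 := h3 h4
  exact h5

theorem near_rel [CompactSpace X] [T2Space X] (e : Module.Basis (Fin (m + 1) × Bool) ℝ (ES d))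
    {τ σ σ' : SForm (ES d) X} (hσ : InClass τ.1 σ.1) (hσ' : InClass τ.1 σ'.1)
    (h : ∀ s ∈ Icc (0 : ℝ) 1, ∀ x, 0 < rT e τ.1 (addS σ s (addS σ' (-1) σ)).1 x) :
    Rel σ.1 σ'.1 ∧ Rel σ'.1 σ.1 := by
  have hfd : FiniteDimensional ℝ (ES d) := fd_ES
  refine ⟨rel_seg hσ hσ' fun s hs => nondeg_of_rT e (h s hs), rel_seg hσ' hσ fun s hs => ?_⟩
  have h1 : (addS σ' s (addS σ (-1) σ')).1 = (addS σ (1 - s) (addS σ' (-1) σ)).1 :=
    addS_rev σ σ' s
  have h2 : (1 - s) ∈ Icc (0 : ℝ) 1 := ⟨by linarith [hs.2], by linarith [hs.1]⟩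
  have h3 := nondeg_of_rT e (h (1 - s) h2)
  rw [← h1] at h3
  exact h3

/-- **Paths of symplectic forms come from isotopies.** -/
theorem rel_path [CompactSpace X] [T2Space X] (e : Module.Basis (Fin (m + 1) × Bool) ℝ (ES d))
    {τ : SForm (ES d) X} (hτ : ∀ x, top (n := m + 1) (V := ES d) (τ.1 x) e ≠ 0)
    {c : unitInterval → SForm (ES d) X} (hc : Continuous c) (hcl : ∀ t, InClass τ.1 (c t).1)
    (hpos : ∀ t x, 0 < rT e τ.1 (c t).1 x) (t t' : unitInterval) : Rel (c t).1 (c t').1 := by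
  have h1 : ∀ t₀ : unitInterval, ∀ᶠ t in 𝓝 t₀, Rel (c t₀).1 (c t).1 ∧ Rel (c t).1 (c t₀).1 := by
    intro t₀
    filter_upwards [near e hτ hc hpos t₀] with t ht
    exact near_rel e (hcl t₀) (hcl t) ht
  have h2 : IsTrans unitInterval (fun t t' : unitInterval => Rel (c t).1 (c t').1) :=
    ⟨fun a b c' h h' => rel_trans h h'⟩
  exact PreconnectedSpace.induction₂' _ h1 h2 t t'

end

end Pool.Agent.Q235.MO
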